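import Pool.Agent.Q4.SR.JD

/-!
# Every finite-dimensional functor over a finite poset has a bounded free resolution
-/

open Set Module

namespace Q4.SR

universe u

variable {k : Type u} [Field k] {P : Type u} [PartialOrder P]

/-- The projection `k_W → k_Z`. -/
noncomputable def indL (k : Type u) [Field k] {Z W : Set P} (h : LowIn Z W) : H k W Z :=
  ind Z h.1 le_rfl h.2 (fun _ _ _ h _ => h)

/-- The inclusion `k_Z → k_T`. -/
noncomputable def indU (k : Type u) [Field k] {Z T : Set P} (h : UpIn Z T) : H k Z T :=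
  ind Z le_rfl h.1 (fun _ _ _ h _ => h) h.2

open Classical in
theorem indL_val {Z W : Set P} (h : LowIn Z W) (p : P) :
    (indL k h).1 p = if p ∈ Z then 1 else 0 := rfl

open Classical in
theorem indU_val {Z T : Set P} (h : UpIn Z T) (p : P) :
    (indU k h).1 p = if p ∈ Z then 1 else 0 := rfl

theorem ind_factor {W T Z : Set P} (h1 : LowIn Z W) (h2 : UpIn Z T) :
    (ind Z h1.1 h2.1 h1.2 h2.2 : H k W T) = Hmul (indL k h1) (indU k h2) := by
  apply Subtype.ext
  funext p
  rw [ind_val, Hmul_val, indL_val, indU_val]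
  by_cases hp : p ∈ Z
  · simp [hp]
  · simp [hp]

/-- A morphism kills `x` if all factors through spreads do. -/
theorem act_eq_zero [Finite P] (F : PM k P) {W T : Cvx P} (η : H k W.1 T.1) (x : F.obj T)
    (h : ∀ (Z : Set P) (_ : LowIn Z W.1) (h2 : UpIn Z T.1) (hZ : IsSpread Z),
      (∀ p ∈ Z, η.1 p ≠ 0) →
      (F.act (W := ⟨Z, hZ.1⟩) (W' := T) (indU k h2) x) = 0) : F.act η x = 0 := by
  have h3 := tDEC W T η (LinearMap.ker (F.act.flip x)) (by
    intro Z h1 h2 hZ hne
    rw [LinearMap.mem_ker, LinearMap.flip_apply, ind_factor h1 h2]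
    have h4 := F.act_mul (W := W) (W' := ⟨Z, hZ.1⟩) (W'' := T) (indL k h1) (indU k h2) x
    rw [h4, h Z h1 h2 hZ hne, map_zero])
  rw [LinearMap.mem_ker, LinearMap.flip_apply] at h3
  exact h3

/-- A functor vanishing on all spreads is zero. -/
theorem van_all [Finite P] (F : PM k P)
    (h : ∀ (I : Set P) (hI : IsSpread I) (x : F.obj ⟨I, hI.1⟩), x = 0) (W : Cvx P)
    (x : F.obj W) : x = 0 := by
  rw [← F.act_one x]
  apply act_eq_zero
  intro Z h1 h2 hZ _
  exact h Z hZ _

/-- A nonempty closed subset of a connected set is everything. -/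
theorem closed_eq {Z I : Set P} (hI : Conn I) (hZ : Z.Nonempty) (h1 : LowIn Z I)
    (h2 : UpIn Z I) : Z = I := by
  apply Subset.antisymm h1.1
  intro q hq
  obtain ⟨p, hp⟩ := hZ
  have h := hI.2 p (h1.1 hp) q hq
  clear hq
  induction h with
  | refl => exact hp
  | @tail b c _ hbc ih =>
    rcases hbc.2.2 with h | h
    · exact h2.2 b ih c hbc.2.1 h
    · exact h1.2 b ih c hbc.2.1 h

theorem low_trans {Z I W : Set P} (h : LowIn Z W) (hIW : I ⊆ W) (hZI : Z ⊆ I) : LowIn Z I :=
  ⟨hZI, fun x hx y hy hyx => h.2 x hx y (hIW hy) hyx⟩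

theorem low_self (I : Set P) : LowIn I I := ⟨le_rfl, fun _ _ _ h _ => h⟩

theorem up_self (I : Set P) : UpIn I I := ⟨le_rfl, fun _ _ _ h _ => h⟩

open Classical in
/-- The morphism `Δ_I → F` given by an element of `F(I)`, if `F` vanishes on smaller spreads. -/
theorem psi_act [Finite P] (F : PM k P) {I : Set P} (hI : IsSpread I) (x : F.obj ⟨I, hI.1⟩)
    (hv : ∀ (Z : Set P) (hZ : IsSpread Z), Z.ncard < I.ncard → ∀ y : F.obj ⟨Z, hZ.1⟩, y = 0)
    {W : Cvx P} (ζ : H k W.1 I) :
    F.act (W := W) (W' := ⟨I, hI.1⟩) ζ x = if h : LowIn I W.1 then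
      ζ.1 hI.2.1.some • F.act (W := W) (W' := ⟨I, hI.1⟩) (indL k h) x else 0 := by
  by_cases h : LowIn I W.1
  · rw [dif_pos h]
    have e : ζ = ζ.1 hI.2.1.some • indL k h := by
      apply Subtype.ext
      funext p
      change ζ.1 p = ζ.1 hI.2.1.some * (indL k h).1 p
      rw [indL_val]
      by_cases hp : p ∈ I
      · rw [if_pos hp, mul_one]
        exact H_const ζ hI.2 h.1 le_rfl hp hI.2.1.some_mem
      · rw [if_neg hp, mul_zero]
        exact Hright ζ hp
    have h2 := LinearMap.map_smul₂ (F.act (W := W) (W' := ⟨I, hI.1⟩)) (ζ.1 hI.2.1.some)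
      (indL k h) x
    rw [← h2]
    exact congrArg (fun z => F.act (W := W) (W' := ⟨I, hI.1⟩) z x) e
  · rw [dif_neg h]
    apply act_eq_zero
    intro Z h1 h2 hZ _
    apply hv Z hZ
    apply Set.ncard_lt_ncard _ (Set.toFinite _)
    refine ⟨h2.1, ?_⟩
    intro h3
    have h4 : Z = I := Subset.antisymm h2.1 h3
    rw [h4] at h1
    exact h h1

open Classical in
/-- The morphism `Δ_I → F` given by an element of `F(I)`, if `F` vanishes on smaller spreads. -/
noncomputable def psi [Finite P] (F : PM k P) {I : Set P} (hI : IsSpread I)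
    (x : F.obj ⟨I, hI.1⟩)
    (hv : ∀ (Z : Set P) (hZ : IsSpread Z), Z.ncard < I.ncard → ∀ y : F.obj ⟨Z, hZ.1⟩, y = 0) :
    PMHom (Del k I hI.2) F where
  app W :=
    { toFun := fun c => if h : LowIn I W.1 then
        c.1 • F.act (W := W) (W' := ⟨I, hI.1⟩) (indL k h) x else 0
      map_add' := by
        intro c d
        by_cases h : LowIn I W.1
        · simp only [h, dite_true]
          exact add_smul c.1 d.1 _
        · simp [h]
      map_smul' := by
        intro c d
        by_cases h : LowIn I W.1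
        · simp only [h, dite_true]
          exact mul_smul c d.1 _
        · simp [h] }
  comm := by
    intro W' W θ c
    simp only [LinearMap.coe_mk, AddHom.coe_mk]
    by_cases h : LowIn I W.1
    · rw [dif_pos h, map_smul, ← F.act_mul (W' := W) (W'' := ⟨I, hI.1⟩) θ (indL k h) x,
        psi_act F hI x hv]
      by_cases h' : LowIn I W'.1
      · rw [dif_pos h', dif_pos h', smul_smul]
        congr 1
        rw [del_act, if_pos h', Hmul_val, indL_val, if_pos hI.2.1.some_mem, mul_one, mul_comm]
      · rw [dif_neg h', dif_neg h', smul_zero]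
    · rw [dif_neg h, map_zero]
      by_cases h' : LowIn I W'.1
      · rw [dif_pos h', del_act, if_pos h', c.2.resolve_left h, mul_zero, zero_smul]
      · rw [dif_neg h']

open Classical in
theorem psi_val [Finite P] (F : PM k P) {I : Set P} (hI : IsSpread I)
    (x : F.obj ⟨I, hI.1⟩)
    (hv : ∀ (Z : Set P) (hZ : IsSpread Z), Z.ncard < I.ncard → ∀ y : F.obj ⟨Z, hZ.1⟩, y = 0)
    (W : Cvx P) (c : (Del k I hI.2).obj W) :
    (psi F hI x hv).app W c = if h : LowIn I W.1 then
        c.1 • F.act (W := W) (W' := ⟨I, hI.1⟩) (indL k h) x else 0 := rfl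

theorem indL_self {I : Set P} (h : LowIn I I) : indL k h = Hone k I := rfl

/-- The exact sequence of a subfunctor. -/
theorem sub_ses {F : PM k P} (S : F.Sub) : SES S.incl S.proj := by
  refine ⟨fun W => Subtype.val_injective, ?_, fun W => Submodule.mkQ_surjective _⟩
  intro W x
  constructor
  · intro h
    have h1 : x ∈ S.S W := (Submodule.Quotient.mk_eq_zero _).1 h
    exact ⟨⟨x, h1⟩, rfl⟩
  · rintro ⟨y, rfl⟩
    exact (Submodule.Quotient.mk_eq_zero _).2 y.2

/-- The exact sequence of a morphism. -/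
def toRange {F G : PM k P} (f : PMHom F G) : PMHom F f.range.toPM where
  app W := (f.app W).rangeRestrict
  comm := by
    intro W W' η x
    apply Subtype.ext
    exact f.comm η x

theorem range_ses {F G : PM k P} (f : PMHom F G) : SES f.ker.incl (toRange f) := by
  refine ⟨fun W => Subtype.val_injective, ?_, fun W => LinearMap.surjective_rangeRestrict _⟩
  intro W x
  constructor
  · intro h
    have h1 : f.app W x = 0 := congrArg Subtype.val h
    exact ⟨⟨x, h1⟩, rfl⟩
  · rintro ⟨y, rfl⟩
    apply Subtype.ext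
    exact y.2

theorem FR_of_range {n : ℕ} {G F : PM k P} (f : PMHom G F) (h1 : FR n f.range.toPM)
    (h2 : FR n f.range.quot) : FR n F :=
  FR_ses n _ _ _ _ _ (sub_ses f.range) h1 h2

/-- The sum of the dimensions over a finite set of convex sets. -/
noncomputable def tdim (s : Finset (Cvx P)) (F : PM k P) : ℕ := ∑ W ∈ s, finrank k (F.obj W)

theorem tdim_quot_lt {F : PM k P} (hF : F.FD) (S : F.Sub) {s : Finset (Cvx P)} {W : Cvx P}
    (hW : W ∈ s) {x : F.obj W} (hx : x ∈ S.S W) (hx0 : x ≠ 0) : tdim s S.quot < tdim s F := by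
  have hle : ∀ V, finrank k (S.quot.obj V) ≤ finrank k (F.obj V) := by
    intro V
    have := hF V
    exact Submodule.finrank_quotient_le (S.S V)
  apply Finset.sum_lt_sum (fun V _ => hle V)
  refine ⟨W, hW, ?_⟩
  have := hF W
  have h1 := Submodule.finrank_quotient_add_finrank (S.S W)
  have h2 : 0 < finrank k (S.S W) := by
    rw [Module.finrank_pos_iff_exists_ne_zero]
    exact ⟨⟨x, hx⟩, fun h => hx0 (congrArg Subtype.val h)⟩
  change finrank k (F.obj W ⧸ S.S W) < finrank k (F.obj W)
  omega

theorem quot_FD {F : PM k P} (hF : F.FD) (S : F.Sub) : S.quot.FD := by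
  intro W
  have := hF W
  change FiniteDimensional k (F.obj W ⧸ S.S W)
  infer_instance

theorem sub_FD {F : PM k P} (hF : F.FD) (S : F.Sub) : S.toPM.FD := by
  intro W
  have := hF W
  change FiniteDimensional k (S.S W)
  infer_instance

theorem kif_FD (I : Set P) (hI : Conn I) : (Del k I hI).FD := by
  intro W
  change FiniteDimensional k (Kif k (LowIn I W.1))
  infer_instance

/-- `F` vanishes on the spreads with at most `m` elements. -/
def Van (m : ℕ) (F : PM k P) : Prop :=
  ∀ (Z : Set P) (hZ : IsSpread Z), Z.ncard ≤ m → ∀ y : F.obj ⟨Z, hZ.1⟩, y = 0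

theorem all_step [Finite P] {m N : ℕ} (hmN : m + 1 ≤ N + 1)
    (hyp : ∀ G : PM k P, G.FD → Van (m + 1) G → FR N G) (t : ℕ) :
    ∀ F : PM k P, F.FD → Van m F →
      tdim (by
        classical
        haveI : Fintype (Cvx P) := Fintype.ofFinite _
        exact Finset.univ.filter (fun W : Cvx P => W.1.ncard = m + 1 ∧ IsSpread W.1)) F ≤ t →
      FR (N + 1) F := by
  classical
  haveI : Fintype (Cvx P) := Fintype.ofFinite _
  set s : Finset (Cvx P) := by
        classical
        haveI : Fintype (Cvx P) := Fintype.ofFinite _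
        exact Finset.univ.filter (fun W : Cvx P => W.1.ncard = m + 1 ∧ IsSpread W.1) with hs
  have hmem : ∀ W : Cvx P, W ∈ s ↔ W.1.ncard = m + 1 ∧ IsSpread W.1 := by
    intro W
    rw [hs]
    simp
  have main : ∀ F : PM k P, F.FD → Van m F → ¬ Van (m + 1) F →
      (∀ G : PM k P, G.FD → Van m G → tdim s G < tdim s F → FR (N + 1) G) → FR (N + 1) F := by
    intro F hF hv hnv hlt
    have hex : ∃ (I : Set P) (hI : IsSpread I), I.ncard = m + 1 ∧
        ∃ x : F.obj ⟨I, hI.1⟩, x ≠ 0 := by
      by_contra hcon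
      push Not at hcon
      apply hnv
      intro Z hZ hc y
      rcases Nat.lt_or_ge m Z.ncard with h | h
      · exact hcon Z hZ (by omega) y
      · exact hv Z hZ h y
    obtain ⟨I, hI, hIm, x, hx⟩ := hex
    have hv' : ∀ (Z : Set P) (hZ : IsSpread Z), Z.ncard < I.ncard →
        ∀ y : F.obj ⟨Z, hZ.1⟩, y = 0 := fun Z hZ hc y => hv Z hZ (by omega) y
    let f := psi F hI x hv'
    have hfx : f.app ⟨I, hI.1⟩ ⟨1, Or.inl (low_self I)⟩ = x := by
      change (psi F hI x hv').app ⟨I, hI.1⟩ _ = x
      rw [psi_val, dif_pos (low_self I), one_smul]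
      exact F.act_one x
    apply FR_of_range f
    · apply FR_cone N _ _ _ _ _ (range_ses f)
      · apply hyp _ (sub_FD (kif_FD I hI.2) _)
        intro Z hZ hc y
        have hy : f.app ⟨Z, hZ.1⟩ y.1 = 0 := y.2
        apply Subtype.ext
        by_cases h : LowIn I Z
        · have hIZ : I = Z := Set.eq_of_subset_of_ncard_le h.1 (by omega) (Set.toFinite _)
          subst hIZ
          have h1 : (psi F hI x hv').app ⟨I, hZ.1⟩ y.1 = 0 := hy
          rw [psi_val, dif_pos h] at h1
          have h2 : F.act (W := ⟨I, hZ.1⟩) (W' := ⟨I, hI.1⟩) (indL k h) x = x := F.act_one x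
          rw [h2] at h1
          exact Subtype.ext ((smul_eq_zero.1 h1).resolve_right hx)
        · apply Subtype.ext
          exact y.1.2.resolve_left h
      · apply FR_mono _ _ (tJD.2 I hI)
        omega
    · apply hlt _ (quot_FD hF _)
      · intro Z hZ hc y
        induction y using Submodule.Quotient.induction_on with
        | H y =>
          rw [hv Z hZ hc y]
          rfl
      · exact tdim_quot_lt hF f.range ((hmem ⟨I, hI.1⟩).2 ⟨hIm, hI⟩) ⟨_, hfx⟩ hx
  induction t with
  | zero =>
    intro F hF hv ht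
    by_cases hnv : Van (m + 1) F
    · exact FR_succ _ _ (hyp F hF hnv)
    · apply main F hF hv hnv
      intro G _ _ hlt
      omega
  | succ t ih =>
    intro F hF hv ht
    by_cases hnv : Van (m + 1) F
    · exact FR_succ _ _ (hyp F hF hnv)
    · apply main F hF hv hnv
      intro G hG hvG hlt
      exact ih G hG hvG (by omega)

theorem all_main [Finite P] : ∀ d : ℕ, d ≤ Nat.card P → ∀ F : PM k P, F.FD →
    Van (Nat.card P - d) F → FR (Nat.card P + d) F := by
  intro d
  induction d with
  | zero =>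
    intro _ F _ hv
    apply FR_mono (Nat.zero_le _)
    apply FR_zero
    apply van_all
    intro I hI x
    apply hv I hI
    rw [Nat.sub_zero]
    have h := Set.ncard_le_ncard (Set.subset_univ I) (Set.toFinite _)
    rw [Set.ncard_univ] at h
    exact h
  | succ d ih =>
    intro hd F hF hv
    have e : Nat.card P - d = Nat.card P - (d + 1) + 1 := by omega
    apply all_step (m := Nat.card P - (d + 1)) (N := Nat.card P + d) (by omega) _ _ F hF hv le_rfl
    intro G hG hvG
    apply ih (by omega) G hG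
    rw [e]
    exact hvG

theorem tALL : SALL.{u} := by
  intro k _ P _ _ F hF
  have h := all_main (k := k) (P := P) (Nat.card P) le_rfl F hF (by
    intro Z hZ hc
    rw [Nat.sub_self] at hc
    exfalso
    have h0 : Z.ncard = 0 := by omega
    rw [Set.ncard_eq_zero (Set.toFinite _)] at h0
    have := hZ.2.1
    rw [h0] at this
    exact Set.not_nonempty_empty this)
  rw [two_mul]
  exact h

end Q4.SR
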