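import Pool.Agent.Q4.SR.TK

/-!
# Components, decomposition of morphisms
-/

open Set

namespace Q4.SR

universe u

variable {k : Type u} [Field k] {P : Type u} [PartialOrder P]

/-- The zigzag relation. -/
def Zz (Z : Set P) (x y : P) : Prop := x ∈ Z ∧ y ∈ Z ∧ (x ≤ y ∨ y ≤ x)

theorem Zz_symm {Z : Set P} {x y : P} (h : Zz Z x y) : Zz Z y x := ⟨h.2.1, h.1, h.2.2.symm⟩

theorem rt_symm {Z : Set P} {x y : P} (h : Relation.ReflTransGen (Zz Z) x y) :
    Relation.ReflTransGen (Zz Z) y x := by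
  induction h with
  | refl => exact Relation.ReflTransGen.refl
  | tail _ hbc ih => exact Relation.ReflTransGen.head (Zz_symm hbc) ih

theorem mem_comp {Z : Set P} {p q : P} :
    q ∈ comp Z p ↔ q ∈ Z ∧ p ∈ Z ∧ Relation.ReflTransGen (Zz Z) p q := Iff.rfl

theorem self_mem_comp {Z : Set P} {p : P} (hp : p ∈ Z) : p ∈ comp Z p :=
  ⟨hp, hp, Relation.ReflTransGen.refl⟩

theorem comp_closed {Z : Set P} {p x y : P} (hx : x ∈ comp Z p) (hy : y ∈ Z)
    (h : x ≤ y ∨ y ≤ x) : y ∈ comp Z p :=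
  ⟨hy, hx.2.1, hx.2.2.tail ⟨hx.1, hy, h⟩⟩

theorem comp_conn {Z : Set P} {p : P} (hp : p ∈ Z) : Conn (comp Z p) := by
  have key : ∀ q, Relation.ReflTransGen (Zz Z) p q →
      Relation.ReflTransGen (Zz (comp Z p)) p q := by
    intro q hq
    induction hq with
    | refl => exact Relation.ReflTransGen.refl
    | @tail b c hb hbc ih =>
      have h1 : b ∈ comp Z p := ⟨hbc.1, hp, hb⟩
      exact ih.tail ⟨h1, comp_closed h1 hbc.2.1 hbc.2.2, hbc.2.2⟩
  refine ⟨⟨p, self_mem_comp hp⟩, ?_⟩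
  intro a ha b hb
  exact (rt_symm (key a ha.2.2)).trans (key b hb.2.2)

theorem comp_ordC {Z : Set P} (hZ : Z.OrdConnected) (p : P) : (comp Z p).OrdConnected := by
  constructor
  intro x hx y hy z hz
  exact comp_closed hx (hZ.out hx.1 hy.1 hz) (Or.inl hz.1)

theorem conn_sub {S Z : Set P} (hS : Conn S) (hSZ : S ⊆ Z) {p : P} (hp : p ∈ S) :
    S ⊆ comp Z p := by
  intro q hq
  refine ⟨hSZ hq, hSZ hp, ?_⟩
  have h := hS.2 p hp q hq
  induction h with
  | refl => exact Relation.ReflTransGen.refl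
  | @tail b c _ hbc ih => exact (ih hbc.1).tail ⟨hSZ hbc.1, hSZ hbc.2.1, hbc.2.2⟩

theorem comp_eq {Z : Set P} {p q : P} (h : q ∈ comp Z p) : comp Z q = comp Z p := by
  apply Subset.antisymm
  · intro x hx
    exact ⟨hx.1, h.2.1, h.2.2.trans hx.2.2⟩
  · intro x hx
    exact ⟨hx.1, h.1, (rt_symm h.2.2).trans hx.2.2⟩

theorem inter_ord {W T : Set P} (hW : W.OrdConnected) (hT : T.OrdConnected) :
    (W ∩ T).OrdConnected := hW.inter hT

/-- A closed connected subset is a component. -/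
theorem closed_eq_comp {I W T : Set P} (hI : Conn I) (h1 : LowIn I W) (h2 : UpIn I T) {p : P}
    (hp : p ∈ I) : comp (W ∩ T) p = I := by
  apply Subset.antisymm
  · rintro q ⟨_, _, hq⟩
    induction hq with
    | refl => exact hp
    | @tail b c _ hbc ih =>
      rcases hbc.2.2 with h | h
      · exact h2.2 b (ih hbc.1) c hbc.2.1.2 h
      · exact h1.2 b (ih hbc.1) c hbc.2.1.1 h
  · exact conn_sub hI (subset_inter h1.1 h2.1) hp

theorem comp_const {W T : Set P} (η : H k W T) {p q : P} (hq : q ∈ comp (W ∩ T) p) :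
    η.1 q = η.1 p :=
  H_const η (comp_conn hq.2.1) (fun _ h => h.1.1) (fun _ h => h.1.2) hq (self_mem_comp hq.2.1)

theorem comp_low {W T : Set P} (η : H k W T) {p : P} (hp : η.1 p ≠ 0) :
    LowIn (comp (W ∩ T) p) W := by
  refine ⟨fun _ h => h.1.1, ?_⟩
  intro x hx y hy hyx
  have e : η.1 y = η.1 x := Heq η hyx hy hx.1.2
  rw [comp_const η hx] at e
  have h1 : η.1 y ≠ 0 := by
    rw [e]
    exact hp
  exact comp_closed hx (Hsupp η h1) (Or.inr hyx)

theorem comp_up {W T : Set P} (η : H k W T) {p : P} (hp : η.1 p ≠ 0) :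
    UpIn (comp (W ∩ T) p) T := by
  refine ⟨fun _ h => h.1.2, ?_⟩
  intro x hx y hy hxy
  have e : η.1 x = η.1 y := Heq η hxy hx.1.1 hy
  rw [comp_const η hx] at e
  have h1 : η.1 y ≠ 0 := by
    rw [← e]
    exact hp
  exact comp_closed hx (Hsupp η h1) (Or.inl hxy)

open Classical in
theorem ind_val {W W' : Set P} (Z : Set P) (h1 : Z ⊆ W) (h2 : Z ⊆ W')
    (h3 : ∀ x ∈ Z, ∀ y ∈ W, y ≤ x → y ∈ Z) (h4 : ∀ x ∈ Z, ∀ y ∈ W', x ≤ y → y ∈ Z) (p : P) :
    (ind (k := k) Z h1 h2 h3 h4).1 p = if p ∈ Z then 1 else 0 := rfl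

theorem tDEC : SDEC.{u} := by
  intro k _ P _ _ W T
  have key : ∀ (n : ℕ) (η : H k W.1 T.1) (M : Submodule k (H k W.1 T.1)),
      {p | η.1 p ≠ 0}.ncard ≤ n →
      (∀ (Z : Set P) (h1 : LowIn Z W.1) (h2 : UpIn Z T.1), IsSpread Z → (∀ p ∈ Z, η.1 p ≠ 0) →
        ind Z h1.1 h2.1 h1.2 h2.2 ∈ M) → η ∈ M := by
    intro n
    induction n with
    | zero =>
      intro η M hn _
      have h0 : η = 0 := by
        apply Subtype.ext
        funext p
        by_contra hp
        have h1 : {p | η.1 p ≠ 0} = ∅ := by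
          rw [← Set.ncard_eq_zero (Set.toFinite _)]
          omega
        have h2 : p ∈ {p | η.1 p ≠ 0} := hp
        rw [h1] at h2
        exact h2
      rw [h0]
      exact M.zero_mem
    | succ n ih =>
      intro η M hn hM
      by_cases hex : ∃ p, η.1 p ≠ 0
      · obtain ⟨p, hp⟩ := hex
        have hpm : p ∈ W.1 ∩ T.1 := Hsupp η hp
        have hlow := comp_low η hp
        have hup := comp_up η hp
        have hsp : IsSpread (comp (W.1 ∩ T.1) p) :=
          ⟨comp_ordC (inter_ord W.2 T.2) p, comp_conn hpm⟩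
        have hmem := hM _ hlow hup hsp (fun q hq => by
          rw [comp_const η hq]
          exact hp)
        set e : H k W.1 T.1 := ind _ hlow.1 hup.1 hlow.2 hup.2 with he
        have hz : ∀ q, (η - η.1 p • e).1 q ≠ 0 → η.1 q ≠ 0 ∧ q ∉ comp (W.1 ∩ T.1) p := by
          intro q hq
          have h1 : (η - η.1 p • e).1 q = η.1 q - η.1 p * e.1 q := rfl
          rw [h1, he, ind_val] at hq
          by_cases hqc : q ∈ comp (W.1 ∩ T.1) p
          · rw [if_pos hqc, comp_const η hqc, mul_one, sub_self] at hq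
            exact absurd rfl hq
          · rw [if_neg hqc, mul_zero, sub_zero] at hq
            exact ⟨hq, hqc⟩
        have h2 : η - η.1 p • e ∈ M := by
          apply ih
          · have h3 : {q | (η - η.1 p • e).1 q ≠ 0} ⊂ {q | η.1 q ≠ 0} := by
              refine ⟨fun q hq => (hz q hq).1, ?_⟩
              intro hsub
              exact (hz p (hsub hp)).2 (self_mem_comp hpm)
            have h4 := Set.ncard_lt_ncard h3 (Set.toFinite _)
            omega
          · intro Z h3 h4 h5 h6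
            exact hM Z h3 h4 h5 (fun q hq => (hz q (h6 q hq)).1)
        have h3 : η = (η - η.1 p • e) + η.1 p • e := by rw [sub_add_cancel]
        rw [h3]
        exact M.add_mem h2 (M.smul_mem _ hmem)
      · push Not at hex
        have h0 : η = 0 := Subtype.ext (funext hex)
        rw [h0]
        exact M.zero_mem
  intro η M hM
  exact key _ η M le_rfl hM

end Q4.SR
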