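import Mathlib

/-!
# Linear functors on the category of convex subsets of a poset

`H k W W'` is the space of morphisms `k_W → k_W'` between the indicator representations of two
convex subsets (a morphism is a scalar `η p` for every `p`, supported in `W ∩ W'`, with
`η p = η q` whenever `p ≤ q`, `p ∈ W`, `q ∈ W'`). A `PM k P` is a contravariant `k`-linear functor
on the category of convex subsets of `P`.
-/

open Set

namespace Q4.SR

universe u

/-- Morphisms `k_W → k_W'`. -/
def H (k : Type u) [Field k] {P : Type u} [PartialOrder P] (W W' : Set P) :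
    Submodule k (P → k) where
  carrier := {η | (∀ p, η p ≠ 0 → p ∈ W ∧ p ∈ W') ∧
    ∀ p q, p ≤ q → p ∈ W → q ∈ W' → η p = η q}
  add_mem' := by
    rintro η θ ⟨h1, h2⟩ ⟨h3, h4⟩
    refine ⟨fun p hp => ?_, fun p q hpq hp hq => ?_⟩
    · by_cases h : η p = 0
      · apply h3 p
        intro h'
        apply hp
        simp [h, h']
      · exact h1 p h
    · simp only [Pi.add_apply]
      rw [h2 p q hpq hp hq, h4 p q hpq hp hq]
  zero_mem' := ⟨fun p hp => absurd rfl hp, fun _ _ _ _ _ => rfl⟩
  smul_mem' := by
    rintro c η ⟨h1, h2⟩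
    refine ⟨fun p hp => h1 p ?_, fun p q hpq hp hq => ?_⟩
    · intro h'
      apply hp
      simp [h']
    · simp only [Pi.smul_apply]
      rw [h2 p q hpq hp hq]

variable {k : Type u} [Field k] {P : Type u} [PartialOrder P]

theorem Hsupp {W W' : Set P} (η : H k W W') {p : P} (h : η.1 p ≠ 0) : p ∈ W ∧ p ∈ W' :=
  η.2.1 p h

theorem Hleft {W W' : Set P} (η : H k W W') {p : P} (h : p ∉ W) : η.1 p = 0 := by
  by_contra h'
  exact h (Hsupp η h').1

theorem Hright {W W' : Set P} (η : H k W W') {p : P} (h : p ∉ W') : η.1 p = 0 := by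
  by_contra h'
  exact h (Hsupp η h').2

theorem Heq {W W' : Set P} (η : H k W W') {p q : P} (hpq : p ≤ q) (hp : p ∈ W) (hq : q ∈ W') :
    η.1 p = η.1 q := η.2.2 p q hpq hp hq

open Classical in
/-- The indicator function of `Z`, a morphism `k_W → k_W'` if `Z ⊆ W ∩ W'` is closed under
smaller elements in `W` and under larger elements in `W'`. -/
noncomputable def ind {W W' : Set P} (Z : Set P) (h1 : Z ⊆ W) (h2 : Z ⊆ W')
    (h3 : ∀ x ∈ Z, ∀ y ∈ W, y ≤ x → y ∈ Z) (h4 : ∀ x ∈ Z, ∀ y ∈ W', x ≤ y → y ∈ Z) :
    H k W W' :=
  ⟨fun p => if p ∈ Z then 1 else 0, by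
    refine ⟨fun p hp => ?_, fun p q hpq hp hq => ?_⟩
    · have hz : p ∈ Z := by
        by_contra hz
        exact hp (by simp [hz])
      exact ⟨h1 hz, h2 hz⟩
    · have : p ∈ Z ↔ q ∈ Z := ⟨fun h => h4 p h q hq hpq, fun h => h3 q h p hp hpq⟩
      by_cases hz : p ∈ Z
      · simp [hz, this.mp hz]
      · have hz' : q ∉ Z := fun h => hz (this.mpr h)
        simp [hz, hz']⟩

/-- The identity morphism of `k_W`. -/
noncomputable def Hone (k : Type u) [Field k] (W : Set P) : H k W W :=
  ind W le_rfl le_rfl (fun _ _ _ h _ => h) (fun _ _ _ h _ => h)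

/-- Composition of morphisms `k_W → k_W' → k_W''` (pointwise product). -/
def Hmul {W W' W'' : Set P} (η : H k W W') (θ : H k W' W'') : H k W W'' :=
  ⟨fun p => η.1 p * θ.1 p, by
    refine ⟨fun p hp => ?_, fun p q hpq hp hq => ?_⟩
    · exact ⟨(Hsupp η (left_ne_zero_of_mul hp)).1, (Hsupp θ (right_ne_zero_of_mul hp)).2⟩
    · change η.1 p * θ.1 p = η.1 q * θ.1 q
      by_cases h1 : p ∈ W'
      · by_cases h2 : q ∈ W'
        · rw [Heq η hpq hp h2, Heq θ hpq h1 hq]
        · have e1 := Heq θ hpq h1 hq
          rw [Hleft θ h2] at e1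
          rw [e1, Hleft θ h2, mul_zero, mul_zero]
      · rw [Hright η h1, zero_mul]
        by_cases h2 : q ∈ W'
        · have e1 := Heq η hpq hp h2
          rw [Hright η h1] at e1
          rw [← e1, zero_mul]
        · rw [Hright η h2, zero_mul]⟩

theorem Hmul_val {W W' W'' : Set P} (η : H k W W') (θ : H k W' W'') (p : P) :
    (Hmul η θ).1 p = η.1 p * θ.1 p := rfl

/-- Convex subsets. -/
abbrev Cvx (P : Type u) [PartialOrder P] : Type u := {W : Set P // W.OrdConnected}

/-- A contravariant `k`-linear functor on the category of convex subsets of `P`. -/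
structure PM (k : Type u) [Field k] (P : Type u) [PartialOrder P] where
  /-- the values -/
  obj : Cvx P → Type u
  [acg : ∀ W, AddCommGroup (obj W)]
  [mod : ∀ W, Module k (obj W)]
  /-- the action of morphisms -/
  act : ∀ {W W' : Cvx P}, H k W.1 W'.1 →ₗ[k] obj W' →ₗ[k] obj W
  act_one : ∀ {W : Cvx P} (x : obj W), act (Hone k W.1) x = x
  act_mul : ∀ {W W' W'' : Cvx P} (η : H k W.1 W'.1) (θ : H k W'.1 W''.1) (x : obj W''),
    act (Hmul η θ) x = act η (act θ x)

attribute [instance] PM.acg PM.mod

/-- A morphism of linear functors. -/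
structure PMHom (F G : PM k P) where
  /-- the components -/
  app : ∀ W, F.obj W →ₗ[k] G.obj W
  comm : ∀ {W W' : Cvx P} (η : H k W.1 W'.1) (x : F.obj W'),
    app W (F.act η x) = G.act η (app W' x)

/-- Short exact sequences of functors. -/
def SES {A B C : PM k P} (i : PMHom A B) (p : PMHom B C) : Prop :=
  (∀ W, Function.Injective (i.app W)) ∧ (∀ W x, p.app W x = 0 ↔ ∃ y, i.app W y = x) ∧
    ∀ W, Function.Surjective (p.app W)

/-- Finite products of functors. -/
def PM.pi {n : ℕ} (F : Fin n → PM k P) : PM k P where
  obj W := ∀ i, (F i).obj W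
  act := fun {W W'} =>
    { toFun := fun η => LinearMap.pi fun i => ((F i).act η).comp (LinearMap.proj i)
      map_add' := by
        intro η θ
        ext x i
        simp
      map_smul' := by
        intro c η
        ext x i
        simp }
  act_one := by
    intro W x
    ext i
    exact (F i).act_one (x i)
  act_mul := by
    intro W W' W'' η θ x
    ext i
    exact (F i).act_mul η θ (x i)

/-- The representable functor `Hom(-, T)`. -/
def yo (k : Type u) [Field k] (T : Cvx P) : PM k P where
  obj W := H k W.1 T.1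
  act := fun {W W'} =>
    { toFun := fun η =>
        { toFun := fun θ => Hmul η θ
          map_add' := by
            intro θ θ'
            ext p
            exact mul_add _ _ _
          map_smul' := by
            intro c θ
            ext p
            exact mul_left_comm _ _ _ }
      map_add' := by
        intro η η'
        ext θ p
        exact add_mul _ _ _
      map_smul' := by
        intro c η
        ext θ p
        exact mul_assoc _ _ _ }
  act_one := by
    intro W x
    ext p
    change (Hone k W.1).1 p * x.1 p = x.1 p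
    by_cases h : p ∈ W.1
    · simp [Hone, ind, h]
    · rw [Hleft x h, mul_zero]
  act_mul := by
    intro W W' W'' η θ x
    ext p
    exact mul_assoc _ _ _

/-- The free functor on a finite family of convex sets. -/
def fre {n : ℕ} (k : Type u) [Field k] (T : Fin n → Cvx P) : PM k P := PM.pi fun i => yo k (T i)

/-- `FR n F`: the functor `F` has a resolution of length at most `n` by free functors. -/
def FR : ℕ → PM k P → Prop
  | 0, F => ∃ (m : ℕ) (T : Fin m → Cvx P) (f : PMHom (fre k T) F),
      ∀ W, Function.Bijective (f.app W)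
  | n + 1, F => ∃ (m : ℕ) (T : Fin m → Cvx P) (K : PM k P) (i : PMHom K (fre k T))
      (p : PMHom (fre k T) F), SES i p ∧ FR n K

/-- Finite-dimensional values. -/
def PM.FD (F : PM k P) : Prop := ∀ W, FiniteDimensional k (F.obj W)

/-- A subfunctor. -/
structure PM.Sub (F : PM k P) where
  /-- the subspaces -/
  S : ∀ W, Submodule k (F.obj W)
  mem : ∀ {W W' : Cvx P} (η : H k W.1 W'.1) (x : F.obj W'), x ∈ S W' → F.act η x ∈ S W

/-- A subfunctor as a functor. -/
def PM.Sub.toPM {F : PM k P} (S : F.Sub) : PM k P where
  obj W := S.S W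
  act := fun {W W'} =>
    { toFun := fun η => ((F.act η).comp (S.S W').subtype).codRestrict (S.S W)
        (fun x => S.mem η x.1 x.2)
      map_add' := by
        intro η θ
        ext x
        simp
      map_smul' := by
        intro c η
        ext x
        simp }
  act_one := by
    intro W x
    ext
    exact F.act_one x.1
  act_mul := by
    intro W W' W'' η θ x
    ext
    exact F.act_mul η θ x.1

/-- The inclusion of a subfunctor. -/
def PM.Sub.incl {F : PM k P} (S : F.Sub) : PMHom S.toPM F where
  app W := (S.S W).subtype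
  comm := by
    intro W W' η x
    rfl

/-- The quotient by a subfunctor. -/
def PM.Sub.quot {F : PM k P} (S : F.Sub) : PM k P where
  obj W := F.obj W ⧸ S.S W
  act := fun {W W'} =>
    { toFun := fun η => (S.S W').mapQ (S.S W) (F.act η) (fun x hx => S.mem η x hx)
      map_add' := by
        intro η θ
        apply Submodule.linearMap_qext
        ext x
        simp
      map_smul' := by
        intro c η
        apply Submodule.linearMap_qext
        ext x
        simp }
  act_one := by
    intro W x
    induction x using Submodule.Quotient.induction_on with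
    | H x =>
      simp only [LinearMap.coe_mk, AddHom.coe_mk, Submodule.mapQ_apply]
      rw [F.act_one]
  act_mul := by
    intro W W' W'' η θ x
    induction x using Submodule.Quotient.induction_on with
    | H x =>
      simp only [LinearMap.coe_mk, AddHom.coe_mk, Submodule.mapQ_apply]
      rw [F.act_mul]

/-- The quotient map. -/
def PM.Sub.proj {F : PM k P} (S : F.Sub) : PMHom F S.quot where
  app W := (S.S W).mkQ
  comm := by
    intro W W' η x
    rfl

/-- The kernel of a morphism. -/
def PMHom.ker {F G : PM k P} (f : PMHom F G) : F.Sub where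
  S W := LinearMap.ker (f.app W)
  mem := by
    intro W W' η x hx
    rw [LinearMap.mem_ker] at hx ⊢
    rw [f.comm, hx, map_zero]

/-- The range of a morphism. -/
def PMHom.range {F G : PM k P} (f : PMHom F G) : G.Sub where
  S W := LinearMap.range (f.app W)
  mem := by
    rintro W W' η x ⟨y, rfl⟩
    exact ⟨F.act η y, f.comm η y⟩

/-- Connectedness by zigzags inside `S` (with `S` nonempty). -/
def Conn (S : Set P) : Prop :=
  S.Nonempty ∧ ∀ a ∈ S, ∀ b ∈ S,
    Relation.ReflTransGen (fun x y => x ∈ S ∧ y ∈ S ∧ (x ≤ y ∨ y ≤ x)) a b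

/-- A spread: a convex connected subset. -/
def IsSpread (S : Set P) : Prop := S.OrdConnected ∧ Conn S

/-- `I` is closed under smaller elements in `W`. -/
def LowIn (I W : Set P) : Prop := I ⊆ W ∧ ∀ x ∈ I, ∀ y ∈ W, y ≤ x → y ∈ I

/-- `I` is closed under larger elements in `W`. -/
def UpIn (I W : Set P) : Prop := I ⊆ W ∧ ∀ x ∈ I, ∀ y ∈ W, x ≤ y → y ∈ I

/-- `I` is closed under comparable elements in `W` (a union of components). -/
def CompIn (I W : Set P) : Prop := LowIn I W ∧ UpIn I W

/-- The component of `p` in `Z`. -/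
def comp (Z : Set P) (p : P) : Set P :=
  {q | q ∈ Z ∧ p ∈ Z ∧ Relation.ReflTransGen (fun x y => x ∈ Z ∧ y ∈ Z ∧ (x ≤ y ∨ y ≤ x)) p q}

end Q4.SR
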