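import Pool.Agent.Q4.SR.Def1

/-!
# The functors used in the heredity argument
-/

open Set

namespace Q4.SR

universe u

variable {k : Type u} [Field k] {P : Type u} [PartialOrder P]

/-- `k` if `pr` holds, and `0` otherwise. -/
def Kif (k : Type u) [Field k] (pr : Prop) : Submodule k k where
  carrier := {c | pr ∨ c = 0}
  add_mem' := by
    rintro a b ha hb
    by_cases h : pr
    · exact Or.inl h
    · right
      rw [ha.resolve_left h, hb.resolve_left h, add_zero]
  zero_mem' := Or.inr rfl
  smul_mem' := by
    rintro c a ha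
    by_cases h : pr
    · exact Or.inl h
    · right
      rw [ha.resolve_left h, smul_zero]

open Classical in
/-- The functor with values `k` on the convex sets with property `Pr` and `0` on the others;
a morphism acts by its value at `p0`. -/
noncomputable def indF (k : Type u) [Field k] (p0 : P) (Pr : Cvx P → Prop)
    (hp : ∀ W, Pr W → p0 ∈ W.1)
    (h : ∀ (W W' W'' : Cvx P) (η : H k W.1 W'.1) (θ : H k W'.1 W''.1), Pr W → Pr W'' →
      η.1 p0 * θ.1 p0 ≠ 0 → Pr W') : PM k P where
  obj W := Kif k (Pr W)
  act := fun {W W'} =>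
    { toFun := fun η =>
        { toFun := fun f => ⟨if Pr W then η.1 p0 * f.1 else 0, by
            by_cases hW : Pr W
            · exact Or.inl hW
            · exact Or.inr (if_neg hW)⟩
          map_add' := by
            intro f g
            apply Subtype.ext
            by_cases hW : Pr W
            · simp [hW, mul_add]
            · simp [hW]
          map_smul' := by
            intro c f
            apply Subtype.ext
            by_cases hW : Pr W
            · simp only [hW, if_true, Submodule.coe_smul, smul_eq_mul, RingHom.id_apply]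
              ring
            · simp [hW] }
      map_add' := by
        intro η θ
        apply LinearMap.ext
        intro f
        apply Subtype.ext
        by_cases hW : Pr W
        · simp [hW, add_mul]
        · simp [hW]
      map_smul' := by
        intro c η
        apply LinearMap.ext
        intro f
        apply Subtype.ext
        by_cases hW : Pr W
        · simp [hW, mul_assoc]
        · simp [hW] }
  act_one := by
    intro W f
    apply Subtype.ext
    by_cases hW : Pr W
    · simp [hW, Hone, ind, hp W hW]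
    · have : f.1 = 0 := f.2.resolve_left hW
      simp [hW, this]
  act_mul := by
    intro W W' W'' η θ f
    apply Subtype.ext
    by_cases hW : Pr W
    · by_cases h'' : Pr W''
      · by_cases h' : Pr W'
        · simp only [LinearMap.coe_mk, AddHom.coe_mk, hW, h', if_true, Hmul_val]
          ring
        · have : η.1 p0 * θ.1 p0 = 0 := by
            by_contra hne
            exact h' (h W W' W'' η θ hW h'' hne)
          simp [hW, h', Hmul_val, this]
      · have : f.1 = 0 := f.2.resolve_left h''
        simp [this]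
    · simp [hW]

/-- A morphism is constant on a connected set contained in both sides. -/
theorem H_const {W W' I : Set P} (η : H k W W') (hI : Conn I) (h1 : I ⊆ W) (h2 : I ⊆ W')
    {p q : P} (hp : p ∈ I) (hq : q ∈ I) : η.1 p = η.1 q := by
  have := hI.2 p hp q hq
  induction this with
  | refl => rfl
  | @tail b c _ hbc ih =>
    obtain ⟨hb, hc, h⟩ := hbc
    rw [ih hb]
    rcases h with h | h
    · exact Heq η h (h1 hb) (h2 hc)
    · exact (Heq η h (h1 hc) (h2 hb)).symm

theorem low_mid {I : Set P} (hI : Conn I) {p0 : P} (hp0 : p0 ∈ I) (W W' W'' : Cvx P)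
    (η : H k W.1 W'.1) (θ : H k W'.1 W''.1) (h1 : LowIn I W.1) (h2 : LowIn I W''.1)
    (hne : η.1 p0 * θ.1 p0 ≠ 0) : LowIn I W'.1 := by
  have hc : ∀ p ∈ I, (Hmul η θ).1 p ≠ 0 := by
    intro p hp
    rw [H_const (Hmul η θ) hI h1.1 h2.1 hp hp0]
    exact hne
  have hsub : I ⊆ W'.1 := fun p hp => (Hsupp η (left_ne_zero_of_mul (hc p hp))).2
  refine ⟨hsub, ?_⟩
  intro x hx y hy hyx
  have e : θ.1 y = θ.1 x := Heq θ hyx hy (h2.1 hx)
  have hθ : θ.1 y ≠ 0 := by
    rw [e]
    exact right_ne_zero_of_mul (hc x hx)
  exact h2.2 x hx y (Hsupp θ hθ).2 hyx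

theorem comp_mid {I : Set P} (hI : Conn I) {p0 : P} (hp0 : p0 ∈ I) (W W' W'' : Cvx P)
    (η : H k W.1 W'.1) (θ : H k W'.1 W''.1) (h1 : CompIn I W.1) (h2 : CompIn I W''.1)
    (hne : η.1 p0 * θ.1 p0 ≠ 0) : CompIn I W'.1 := by
  refine ⟨low_mid hI hp0 W W' W'' η θ h1.1 h2.1 hne, ?_⟩
  have hc : ∀ p ∈ I, (Hmul η θ).1 p ≠ 0 := by
    intro p hp
    rw [H_const (Hmul η θ) hI h1.1.1 h2.1.1 hp hp0]
    exact hne
  have hsub : I ⊆ W'.1 := fun p hp => (Hsupp η (left_ne_zero_of_mul (hc p hp))).2
  refine ⟨hsub, ?_⟩
  intro x hx y hy hxy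
  have e : η.1 x = η.1 y := Heq η hxy (h1.1.1 hx) hy
  have hη : η.1 y ≠ 0 := by
    rw [← e]
    exact left_ne_zero_of_mul (hc x hx)
  exact h1.2.2 x hx y (Hsupp η hη).1 hxy

/-- The functor `Δ_I`: value `k` on the convex sets in which `I` is closed under smaller
elements (`k_I` is a quotient of `k_W`). -/
noncomputable def Del (k : Type u) [Field k] (I : Set P) (hI : Conn I) : PM k P :=
  indF k hI.1.some (fun W => LowIn I W.1) (fun _ h => h.1 hI.1.some_mem)
    (low_mid hI hI.1.some_mem)

/-- The simple functor `S_I`: value `k` on the convex sets of which `I` is a component. -/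
noncomputable def Sim (k : Type u) [Field k] (I : Set P) (hI : Conn I) : PM k P :=
  indF k hI.1.some (fun W => CompIn I W.1) (fun _ h => h.1.1 hI.1.some_mem)
    (comp_mid hI hI.1.some_mem)

theorem comp_subset (Z : Set P) (p : P) : comp Z p ⊆ Z := fun _ h => h.1

/-- The subfunctor `J_m` of `Hom(-, T)`: morphisms supported on components of `W ∩ T` with at
most `m` elements. -/
def Jm (k : Type u) [Field k] [Finite P] (m : ℕ) (T : Cvx P) : (yo k T).Sub where
  S W :=
    { carrier := {η : H k W.1 T.1 | ∀ p, η.1 p ≠ 0 → (comp (W.1 ∩ T.1) p).ncard ≤ m}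
      add_mem' := by
        intro η θ h1 h2 p hp
        by_cases h : η.1 p = 0
        · apply h2 p
          intro h'
          apply hp
          change η.1 p + θ.1 p = 0
          rw [h, h', add_zero]
        · exact h1 p h
      zero_mem' := fun p hp => absurd rfl hp
      smul_mem' := by
        intro c η h p hp
        apply h p
        intro h'
        apply hp
        change c * η.1 p = 0
        rw [h', mul_zero] }
  mem := by
    intro W W' η x hx p hp
    have hne : η.1 p * x.1 p ≠ 0 := hp
    refine le_trans (Set.ncard_le_ncard ?_ (Set.toFinite _)) (hx p (right_ne_zero_of_mul hne))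
    have key : ∀ q, Relation.ReflTransGen
        (fun x y => x ∈ W.1 ∩ T.1 ∧ y ∈ W.1 ∩ T.1 ∧ (x ≤ y ∨ y ≤ x)) p q →
        q ∈ W.1 ∩ T.1 → (Hmul η x).1 q ≠ 0 ∧ Relation.ReflTransGen
        (fun x y => x ∈ W'.1 ∩ T.1 ∧ y ∈ W'.1 ∩ T.1 ∧ (x ≤ y ∨ y ≤ x)) p q := by
      intro q hq
      induction hq with
      | refl => exact fun _ => ⟨hne, Relation.ReflTransGen.refl⟩
      | @tail b c _ hbc ih =>
        intro _
        obtain ⟨hb, hc, h⟩ := hbc
        obtain ⟨ih1, ih2⟩ := ih hb
        have e : (Hmul η x).1 b = (Hmul η x).1 c := by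
          rcases h with h | h
          · exact Heq (Hmul η x) h hb.1 hc.2
          · exact (Heq (Hmul η x) h hc.1 hb.2).symm
        have hc' : (Hmul η x).1 c ≠ 0 := by
          rw [← e]
          exact ih1
        have mb : b ∈ W'.1 ∩ T.1 :=
          ⟨(Hsupp η (left_ne_zero_of_mul ih1)).2, hb.2⟩
        have mc : c ∈ W'.1 ∩ T.1 :=
          ⟨(Hsupp η (left_ne_zero_of_mul hc')).2, hc.2⟩
        exact ⟨hc', ih2.tail ⟨mb, mc, h⟩⟩
    intro q hq
    obtain ⟨hq1, hp1, hq2⟩ := hq
    obtain ⟨h1, h2⟩ := key q hq2 hq1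
    exact ⟨⟨(Hsupp η (left_ne_zero_of_mul h1)).2, hq1.2⟩,
      ⟨(Hsupp η (left_ne_zero_of_mul hne)).2, hp1.2⟩, h2⟩

end Q4.SR
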