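import Pool.Agent.Q4.SR.Def2

/-!
# Representations of posets, spread resolutions
-/

open Set

namespace Q4.SR

universe u

/-- The preimage of a convex set. -/
def Cpull {P P' : Type u} [PartialOrder P] [PartialOrder P'] (lam : P' → P)
    (hlam : Monotone lam) (W : Cvx P) : Cvx P' :=
  ⟨lam ⁻¹' W.1, ⟨fun _ hx _ hy _ hz => W.2.out hx hy ⟨hlam hz.1, hlam hz.2⟩⟩⟩

/-- Pull-back of morphisms along a monotone map. -/
def Hpull {k : Type u} [Field k] {P P' : Type u} [PartialOrder P] [PartialOrder P']
    (lam : P' → P) (hlam : Monotone lam) (W W' : Cvx P) :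
    H k W.1 W'.1 →ₗ[k] H k (Cpull lam hlam W).1 (Cpull lam hlam W').1 where
  toFun η := ⟨fun x => η.1 (lam x), fun _ hp => Hsupp η hp,
    fun _ _ hpq hp hq => Heq η (hlam hpq) hp hq⟩
  map_add' _ _ := rfl
  map_smul' _ _ := rfl

/-- The functor `W ↦ F (lam⁻¹ W)`. -/
def pull {k : Type u} [Field k] {P P' : Type u} [PartialOrder P] [PartialOrder P']
    (lam : P' → P) (hlam : Monotone lam) (F : PM k P') : PM k P where
  obj W := F.obj (Cpull lam hlam W)
  act := fun {W W'} => F.act.comp (Hpull lam hlam W W')
  act_one := by
    intro W x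
    have : Hpull lam hlam W W (Hone k W.1) = Hone k (Cpull lam hlam W).1 := by
      apply Subtype.ext
      funext p
      rfl
    rw [LinearMap.comp_apply, this]
    exact F.act_one x
  act_mul := by
    intro W W' W'' η θ x
    exact F.act_mul (Hpull lam hlam W W' η) (Hpull lam hlam W' W'' θ) x

/-- A representation of a poset: a functor to vector spaces. -/
structure PRep (k : Type u) [Field k] (P : Type u) [PartialOrder P] where
  /-- the spaces -/
  V : P → Type u
  [acg : ∀ p, AddCommGroup (V p)]
  [mod : ∀ p, Module k (V p)]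
  /-- the maps -/
  map : ∀ {p q : P}, p ≤ q → V p →ₗ[k] V q
  map_refl : ∀ {p : P} (h : p ≤ p) (x : V p), map h x = x
  map_map : ∀ {p q r : P} (h : p ≤ q) (h' : q ≤ r) (x : V p), map h' (map h x) = map (h.trans h') x

attribute [instance] PRep.acg PRep.mod

variable {k : Type u} [Field k] {P : Type u} [PartialOrder P]

/-- Morphisms of representations. -/
structure RHom (M N : PRep k P) where
  /-- the components -/
  app : ∀ p, M.V p →ₗ[k] N.V p
  comm : ∀ {p q : P} (h : p ≤ q) (x : M.V p), app q (M.map h x) = N.map h (app p x)

/-- Finite-dimensional values. -/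
def PRep.FD (M : PRep k P) : Prop := ∀ p, FiniteDimensional k (M.V p)

open Classical in
/-- The structure maps of a direct sum of indicator representations: the identity on the
summands `T i` with `q ∈ T i`, and zero on the others. -/
noncomputable def ssumMap (k : Type u) [Field k] {n : ℕ} (T : Fin n → Cvx P) (p q : P) :
    (∀ i, Kif k (p ∈ (T i).1)) →ₗ[k] ∀ i, Kif k (q ∈ (T i).1) where
  toFun x i := ⟨if q ∈ (T i).1 then (x i).1 else 0, by
        by_cases hq : q ∈ (T i).1
        · exact Or.inl hq
        · exact Or.inr (if_neg hq)⟩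
  map_add' := by
        intro x y
        funext i
        apply Subtype.ext
        by_cases hq : q ∈ (T i).1
        · simp [hq]
        · simp [hq]
  map_smul' := by
        intro c x
        funext i
        apply Subtype.ext
        by_cases hq : q ∈ (T i).1
        · simp [hq]
        · simp [hq]

theorem ssumMap_refl {n : ℕ} (T : Fin n → Cvx P) (p : P) (x : ∀ i, Kif k (p ∈ (T i).1)) :
    ssumMap k T p p x = x := by
  funext i
  apply Subtype.ext
  by_cases hq : p ∈ (T i).1
  · simp [ssumMap, hq]
  · have : (x i).1 = 0 := (x i).2.resolve_left hq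
    simp [ssumMap, hq, this]

theorem ssumMap_map {n : ℕ} (T : Fin n → Cvx P) {p q r : P} (h : p ≤ q) (h' : q ≤ r)
    (x : ∀ i, Kif k (p ∈ (T i).1)) :
    ssumMap k T q r (ssumMap k T p q x) = ssumMap k T p r x := by
  funext i
  apply Subtype.ext
  by_cases hr : r ∈ (T i).1
  · by_cases hq : q ∈ (T i).1
    · simp [ssumMap, hr, hq]
    · have hp : p ∉ (T i).1 := fun hp => hq ((T i).2.out hp hr ⟨h, h'⟩)
      have : (x i).1 = 0 := (x i).2.resolve_left hp
      simp [ssumMap, hr, hq, this]
  · simp [ssumMap, hr]

/-- The direct sum of the indicator representations of finitely many convex sets: the value at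
`p` is the sum of one copy of `k` for each `T i` containing `p`. -/
noncomputable def ssum (k : Type u) [Field k] {n : ℕ} (T : Fin n → Cvx P) : PRep k P where
  V p := ∀ i, Kif k (p ∈ (T i).1)
  map := fun {p q} _ => ssumMap k T p q
  map_refl := fun {p} _ x => ssumMap_refl T p x
  map_map := fun {_ _ _} h h' x => ssumMap_map T h h' x

/-- The principal up-set as a convex set. -/
def upC (a : P) : Cvx P := ⟨Set.Ici a, Set.ordConnected_Ici⟩

/-- Finitely presented: the cokernel of a morphism between finite direct sums of
representables. -/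
def IsFP (M : PRep k P) : Prop :=
  ∃ (m n : ℕ) (a : Fin m → P) (b : Fin n → P) (f : RHom (ssum k fun j => upC (b j))
    (ssum k fun i => upC (a i))) (g : RHom (ssum k fun i => upC (a i)) M),
    (∀ p, Function.Surjective (g.app p)) ∧ ∀ p x, g.app p x = 0 ↔ ∃ y, f.app p y = x

/-- Short exact sequences of representations. -/
def RSES {A B C : PRep k P} (i : RHom A B) (p : RHom B C) : Prop :=
  (∀ x, Function.Injective (i.app x)) ∧ (∀ x y, p.app x y = 0 ↔ ∃ z, i.app x z = y) ∧
    ∀ x, Function.Surjective (p.app x)

/-- Every morphism from the indicator representation of `S` to the target of `g` lifts to the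
source of `g`. -/
def Lifts {X M : PRep k P} (g : RHom X M) (S : Cvx P) : Prop :=
  ∀ h : RHom (ssum k fun _ : Fin 1 => S) M, ∃ h' : RHom (ssum k fun _ : Fin 1 => S) X,
    ∀ p x, g.app p (h'.app p x) = h.app p x

/-- Exactness in the spread exact structure: short exact, and exact after applying
`Hom(k_S, -)` for every spread `S`. -/
def SpreadExact {A B C : PRep k P} (i : RHom A B) (p : RHom B C) : Prop :=
  RSES i p ∧ ∀ S : Cvx P, Conn S.1 → Lifts p S

/-- A finite direct sum of spread representations (up to isomorphism). -/
def IsSpreadSum (X : PRep k P) : Prop :=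
  ∃ (n : ℕ) (S : Fin n → Cvx P) (f : RHom (ssum k S) X), (∀ i, Conn (S i).1) ∧
    ∀ p, Function.Bijective (f.app p)

/-- `HasRes n M`: the representation `M` has a spread-resolution of length at most `n` (in the
category of finitely presented representations). -/
def HasRes : ℕ → PRep k P → Prop
  | 0, M => IsFP M ∧ IsSpreadSum M
  | n + 1, M => ∃ (N X : PRep k P) (i : RHom N X) (p : RHom X M), IsFP M ∧ IsFP X ∧
      IsSpreadSum X ∧ SpreadExact i p ∧ HasRes n N

/-- Sections over `W`: morphisms `k_W → N`. -/
def Sec (W : Cvx P) (N : PRep k P) : Submodule k (∀ p, N.V p) where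
  carrier := {m | (∀ p, p ∉ W.1 → m p = 0) ∧ ∀ (p q : P) (h : p ≤ q), p ∈ W.1 →
    N.map h (m p) = m q}
  add_mem' := by
    rintro m m' ⟨h1, h2⟩ ⟨h3, h4⟩
    refine ⟨fun p hp => ?_, fun p q h hp => ?_⟩
    · rw [Pi.add_apply, h1 p hp, h3 p hp, add_zero]
    · rw [Pi.add_apply, Pi.add_apply, map_add, h2 p q h hp, h4 p q h hp]
  zero_mem' := ⟨fun _ _ => rfl, fun _ _ _ _ => by simp⟩
  smul_mem' := by
    rintro c m ⟨h1, h2⟩
    refine ⟨fun p hp => ?_, fun p q h hp => ?_⟩
    · rw [Pi.smul_apply, h1 p hp, smul_zero]
    · rw [Pi.smul_apply, Pi.smul_apply, map_smul, h2 p q h hp]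

/-- The functor `W ↦ Hom(k_W, N)`. -/
def secF (N : PRep k P) : PM k P where
  obj W := Sec W N
  act := fun {W W'} =>
    { toFun := fun η =>
        { toFun := fun m => ⟨fun p => η.1 p • m.1 p, by
            refine ⟨fun p hp => ?_, fun p q h hp => ?_⟩
            · change η.1 p • m.1 p = 0
              rw [Hleft η hp, zero_smul]
            · change N.map h (η.1 p • m.1 p) = η.1 q • m.1 q
              rw [map_smul]
              by_cases hp' : p ∈ W'.1
              · rw [m.2.2 p q h hp']
                by_cases hq' : q ∈ W'.1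
                · rw [Heq η h hp hq']
                · rw [m.2.1 q hq', smul_zero, smul_zero]
              · rw [m.2.1 p hp', map_zero, smul_zero]
                by_cases hq' : q ∈ W'.1
                · rw [← Heq η h hp hq', Hright η hp', zero_smul]
                · rw [m.2.1 q hq', smul_zero]⟩
          map_add' := by
            intro m m'
            apply Subtype.ext
            funext p
            exact smul_add _ _ _
          map_smul' := by
            intro c m
            apply Subtype.ext
            funext p
            exact smul_comm _ _ _ }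
      map_add' := by
        intro η θ
        apply LinearMap.ext
        intro m
        apply Subtype.ext
        funext p
        exact add_smul _ _ _
      map_smul' := by
        intro c η
        apply LinearMap.ext
        intro m
        apply Subtype.ext
        funext p
        exact mul_smul _ _ _ }
  act_one := by
    intro W m
    apply Subtype.ext
    funext p
    change (Hone k W.1).1 p • m.1 p = m.1 p
    by_cases h : p ∈ W.1
    · simp [Hone, ind, h]
    · rw [m.2.1 p h, smul_zero]
  act_mul := by
    intro W W' W'' η θ m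
    apply Subtype.ext
    funext p
    exact mul_smul _ _ _

/-- Resolutions by indicator representations of convex sets for which all sections over convex
sets lift. -/
def CRes : ℕ → PRep k P → Prop
  | 0, N => ∃ (m : ℕ) (T : Fin m → Cvx P) (f : RHom (ssum k T) N), ∀ p, Function.Bijective (f.app p)
  | n + 1, N => ∃ (m : ℕ) (T : Fin m → Cvx P) (N' : PRep k P) (i : RHom N' (ssum k T))
      (p : RHom (ssum k T) N), N'.FD ∧ RSES i p ∧
      (∀ (W : Cvx P), ∀ x ∈ Sec W N, ∃ y ∈ Sec W (ssum k T), ∀ r, p.app r (y r) = x r) ∧
      CRes n N'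

/-- `{c ∈ C : c ≤ t}` is nonempty. -/
def Has {T : Type u} [LinearOrder T] (C : Finset T) (t : T) : Prop := ∃ c ∈ C, c ≤ t

theorem Has.nonempty {T : Type u} [LinearOrder T] {C : Finset T} {t : T} (h : Has C t) :
    (C.filter (fun c => c ≤ t)).Nonempty := by
  obtain ⟨c, hc, hct⟩ := h
  exact ⟨c, Finset.mem_filter.mpr ⟨hc, hct⟩⟩

/-- The largest element of `C` below `t`. -/
noncomputable def fl {T : Type u} [LinearOrder T] (C : Finset T) (t : T) (h : Has C t) : C :=
  ⟨(C.filter (fun c => c ≤ t)).max' h.nonempty,
    (Finset.mem_filter.mp (Finset.max'_mem _ h.nonempty)).1⟩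

theorem fl_le {T : Type u} [LinearOrder T] (C : Finset T) (t : T) (h : Has C t) :
    (fl C t h : T) ≤ t :=
  (Finset.mem_filter.mp (Finset.max'_mem (C.filter (fun c => c ≤ t)) h.nonempty)).2

theorem le_fl {T : Type u} [LinearOrder T] (C : Finset T) (t : T) (h : Has C t) {c : T}
    (hc : c ∈ C) (hct : c ≤ t) : c ≤ fl C t h :=
  Finset.le_max' _ _ (Finset.mem_filter.mpr ⟨hc, hct⟩)

theorem fl_mono {T : Type u} [LinearOrder T] (C : Finset T) {t t' : T} (h : Has C t)
    (h' : Has C t') (htt : t ≤ t') : fl C t h ≤ fl C t' h' :=
  le_fl C t' h' (fl C t h).2 ((fl_le C t h).trans htt)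

theorem Has.mono {T : Type u} [LinearOrder T] {C : Finset T} {t t' : T} (h : Has C t)
    (htt : t ≤ t') : Has C t' := by
  obtain ⟨c, hc, hct⟩ := h
  exact ⟨c, hc, hct.trans htt⟩

open Classical in
/-- The extension of a representation of `C × Q` to `T × Q`: the value at `(t, q)` is the value
at `(c, q)`, where `c` is the largest element of `C` below `t` (and `0` if there is none). -/
noncomputable def Lx {T Q : Type u} [LinearOrder T] [PartialOrder Q] (C : Finset T)
    (N : PRep k (C × Q)) : PRep k (T × Q) where
  V x := ∀ h : PLift (Has C x.1), N.V (fl C x.1 h.down, x.2)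
  map := fun {x y} hxy =>
    { toFun := fun f h' => if h : Has C x.1 then
          N.map (show (fl C x.1 h, x.2) ≤ (fl C y.1 h'.down, y.2) from
            ⟨fl_mono C h h'.down hxy.1, hxy.2⟩) (f ⟨h⟩) else 0
      map_add' := by
        intro f g
        funext h'
        by_cases h : Has C x.1
        · simp [h]
        · simp [h]
      map_smul' := by
        intro c f
        funext h'
        by_cases h : Has C x.1
        · simp [h]
        · simp [h] }
  map_refl := by
    intro x hx f
    funext h
    have := h.down
    simp only [LinearMap.coe_mk, AddHom.coe_mk, this, dite_true]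
    exact N.map_refl _ _
  map_map := by
    intro x y z hxy hyz f
    funext h''
    by_cases h : Has C x.1
    · have h' : Has C y.1 := h.mono hxy.1
      simp only [LinearMap.coe_mk, AddHom.coe_mk, h, h', dite_true]
      exact N.map_map _ _ _
    · by_cases h' : Has C y.1
      · simp [h, h']
      · simp [h, h']

end Q4.SR
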