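import Pool.Agent.Q4.SR.ALL

/-!
# If all simple functors have resolutions of length `n`, so do all functors
-/

open Set Module

namespace Q4.SR

universe u

variable {k : Type u} [Field k] {P : Type u} [PartialOrder P]

open Classical in
theorem sim_act (I : Set P) (hI : Conn I) {W W' : Cvx P} (η : H k W.1 W'.1)
    (c : (Sim k I hI).obj W') :
    ((Sim k I hI).act η c).1 = if CompIn I W.1 then η.1 hI.1.some * c.1 else 0 := rfl

/-- `x ∈ F(I)` is killed by all morphisms from other spreads. -/
def Soc (F : PM k P) {I : Set P} (hI : IsSpread I) (x : F.obj ⟨I, hI.1⟩) : Prop :=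
  ∀ (J : Set P) (hJ : IsSpread J), J ≠ I → ∀ θ : H k J I,
    F.act (W := ⟨J, hJ.1⟩) (W' := ⟨I, hI.1⟩) θ x = 0

open Classical in
theorem soc_act [Finite P] (F : PM k P) {I : Set P} (hI : IsSpread I) (x : F.obj ⟨I, hI.1⟩)
    (hx : Soc F hI x) {W : Cvx P} (ζ : H k W.1 I) :
    F.act (W := W) (W' := ⟨I, hI.1⟩) ζ x = if h : CompIn I W.1 then
      ζ.1 hI.2.1.some • F.act (W := W) (W' := ⟨I, hI.1⟩) (indL k h.1) x else 0 := by
  by_cases h : CompIn I W.1
  · rw [dif_pos h]
    have e : ζ = ζ.1 hI.2.1.some • indL k h.1 := by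
      apply Subtype.ext
      funext p
      change ζ.1 p = ζ.1 hI.2.1.some * (indL k h.1).1 p
      rw [indL_val]
      by_cases hp : p ∈ I
      · rw [if_pos hp, mul_one]
        exact H_const ζ hI.2 h.1.1 le_rfl hp hI.2.1.some_mem
      · rw [if_neg hp, mul_zero]
        exact Hright ζ hp
    have h2 := LinearMap.map_smul₂ (F.act (W := W) (W' := ⟨I, hI.1⟩)) (ζ.1 hI.2.1.some)
      (indL k h.1) x
    rw [← h2]
    exact congrArg (fun z => F.act (W := W) (W' := ⟨I, hI.1⟩) z x) e
  · rw [dif_neg h]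
    by_cases hl : LowIn I W.1
    · have hJI : I ⊆ comp W.1 hI.2.1.some := conn_sub hI.2 hl.1 hI.2.1.some_mem
      have hJs : IsSpread (comp W.1 hI.2.1.some) :=
        ⟨comp_ordC W.2 _, comp_conn (hl.1 hI.2.1.some_mem)⟩
      have hJne : comp W.1 hI.2.1.some ≠ I := by
        intro e
        apply h
        refine ⟨hl, hl.1, ?_⟩
        intro p hp q hq hpq
        have h1 : p ∈ comp W.1 hI.2.1.some := hJI hp
        have h2 := comp_closed h1 hq (Or.inl hpq)
        rw [e] at h2
        exact h2
      have hJl : LowIn (comp W.1 hI.2.1.some) W.1 :=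
        ⟨fun _ h => h.1, fun _ hp _ hq hqp => comp_closed hp hq (Or.inr hqp)⟩
      -- `ζ` is a multiple of the composition through the component
      let θ : H k (comp W.1 hI.2.1.some) I :=
        ζ.1 hI.2.1.some • indL k (low_trans hl hJl.1 hJI)
      have e : ζ = Hmul (indL k hJl) θ := by
        apply Subtype.ext
        funext p
        change ζ.1 p = (indL k hJl).1 p * (ζ.1 hI.2.1.some *
          (indL k (low_trans hl hJl.1 hJI)).1 p)
        rw [indL_val, indL_val]
        by_cases hp : p ∈ I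
        · rw [if_pos hp, if_pos (hJI hp), one_mul, mul_one]
          exact H_const ζ hI.2 hl.1 le_rfl hp hI.2.1.some_mem
        · rw [if_neg hp, mul_zero, mul_zero]
          exact Hright ζ hp
      have h3 := F.act_mul (W := W) (W' := ⟨_, hJs.1⟩) (W'' := ⟨I, hI.1⟩) (indL k hJl) θ x
      rw [hx _ hJs hJne, map_zero] at h3
      rw [e]
      exact h3
    · apply act_eq_zero
      intro Z h1 h2 hZ _
      apply hx Z hZ
      rintro rfl
      exact hl h1

open Classical in
/-- The morphism `S_I → F` given by a socle element. -/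
noncomputable def psiS [Finite P] (F : PM k P) {I : Set P} (hI : IsSpread I)
    (x : F.obj ⟨I, hI.1⟩) (hx : Soc F hI x) : PMHom (Sim k I hI.2) F where
  app W :=
    { toFun := fun c => if h : CompIn I W.1 then
        c.1 • F.act (W := W) (W' := ⟨I, hI.1⟩) (indL k h.1) x else 0
      map_add' := by
        intro c d
        by_cases h : CompIn I W.1
        · simp only [h, dite_true]
          exact add_smul c.1 d.1 _
        · simp [h]
      map_smul' := by
        intro c d
        by_cases h : CompIn I W.1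
        · simp only [h, dite_true]
          exact mul_smul c d.1 _
        · simp [h] }
  comm := by
    intro W' W θ c
    simp only [LinearMap.coe_mk, AddHom.coe_mk]
    by_cases h : CompIn I W.1
    · rw [dif_pos h, map_smul, ← F.act_mul (W' := W) (W'' := ⟨I, hI.1⟩) θ (indL k h.1) x,
        soc_act F hI x hx]
      by_cases h' : CompIn I W'.1
      · rw [dif_pos h', dif_pos h', smul_smul]
        congr 1
        rw [sim_act, if_pos h', Hmul_val, indL_val, if_pos hI.2.1.some_mem, mul_one, mul_comm]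
      · rw [dif_neg h', dif_neg h', smul_zero]
    · rw [dif_neg h, map_zero]
      by_cases h' : CompIn I W'.1
      · rw [dif_pos h', sim_act, if_pos h', c.2.resolve_left h, mul_zero, zero_smul]
      · rw [dif_neg h']

open Classical in
theorem psiS_val [Finite P] (F : PM k P) {I : Set P} (hI : IsSpread I)
    (x : F.obj ⟨I, hI.1⟩) (hx : Soc F hI x) (W : Cvx P) (c : (Sim k I hI.2).obj W) :
    (psiS F hI x hx).app W c = if h : CompIn I W.1 then
        c.1 • F.act (W := W) (W' := ⟨I, hI.1⟩) (indL k h.1) x else 0 := rfl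

theorem psiS_inj [Finite P] (F : PM k P) {I : Set P} (hI : IsSpread I)
    (x : F.obj ⟨I, hI.1⟩) (hx : Soc F hI x) (hx0 : x ≠ 0) (W : Cvx P) :
    Function.Injective ((psiS F hI x hx).app W) := by
  rw [injective_iff_map_eq_zero]
  intro c hc
  apply Subtype.ext
  by_cases h : CompIn I W.1
  · rw [psiS_val, dif_pos h] at hc
    refine (smul_eq_zero.1 hc).resolve_right ?_
    intro h0
    apply hx0
    have h1 := F.act_mul (W := ⟨I, hI.1⟩) (W' := W) (W'' := ⟨I, hI.1⟩) (indU k h.2)
      (indL k h.1) x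
    have e : Hmul (indU k h.2) (indL k h.1) = Hone k I := by
      apply Subtype.ext
      funext p
      rw [Hmul_val, indL_val, indU_val]
      change _ = (indL k (low_self I)).1 p
      rw [indL_val]
      by_cases hp : p ∈ I
      · simp [hp]
      · simp [hp]
    rw [h0, map_zero] at h1
    have h2 : F.act (W := ⟨I, hI.1⟩) (W' := ⟨I, hI.1⟩) (Hmul (indU k h.2) (indL k h.1)) x = x := by
      rw [e]
      exact F.act_one x
    rw [← h2]
    exact h1
  · exact c.2.resolve_left h

/-- The spreads reached by `x`. -/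
def reach (F : PM k P) (I : Set P) (hI : IsSpread I) (x : F.obj ⟨I, hI.1⟩) : Set (Set P) :=
  {J | ∃ (hJ : IsSpread J) (g : H k J I), F.act (W := ⟨J, hJ.1⟩) (W' := ⟨I, hI.1⟩) g x ≠ 0}

theorem exists_soc [Finite P] (F : PM k P)
    (hne : ∃ (I : Set P) (hI : IsSpread I) (x : F.obj ⟨I, hI.1⟩), x ≠ 0) :
    ∃ (I : Set P) (hI : IsSpread I) (x : F.obj ⟨I, hI.1⟩), x ≠ 0 ∧ Soc F hI x := by
  classical
  let Q : ℕ → Prop := fun n => ∃ (I : Set P) (hI : IsSpread I) (x : F.obj ⟨I, hI.1⟩), x ≠ 0 ∧
    (reach F I hI x).ncard = n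
  have hQ : ∃ n, Q n := by
    obtain ⟨I, hI, x, hx⟩ := hne
    exact ⟨_, I, hI, x, hx, rfl⟩
  obtain ⟨I, hI, x, hx, hn⟩ := Nat.find_spec hQ
  refine ⟨I, hI, x, hx, ?_⟩
  intro J hJ hJI g
  by_contra hg
  have hsub : reach F J hJ (F.act (W := ⟨J, hJ.1⟩) (W' := ⟨I, hI.1⟩) g x) ⊆ reach F I hI x := by
    rintro K ⟨hK, h, hh⟩
    refine ⟨hK, Hmul h g, ?_⟩
    have h1 := F.act_mul (W := ⟨K, hK.1⟩) (W' := ⟨J, hJ.1⟩) (W'' := ⟨I, hI.1⟩) h g x
    rw [h1]
    exact hh
  have hle : Nat.find hQ ≤
      (reach F J hJ (F.act (W := ⟨J, hJ.1⟩) (W' := ⟨I, hI.1⟩) g x)).ncard :=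
    Nat.find_min' hQ ⟨J, hJ, _, hg, rfl⟩
  have heq : reach F J hJ (F.act (W := ⟨J, hJ.1⟩) (W' := ⟨I, hI.1⟩) g x) = reach F I hI x :=
    Set.eq_of_subset_of_ncard_le hsub (by rw [hn]; exact hle) (Set.toFinite _)
  have hI' : I ∈ reach F I hI x := by
    refine ⟨hI, Hone k I, ?_⟩
    have h1 := F.act_one (W := ⟨I, hI.1⟩) x
    rw [h1]
    exact hx
  rw [← heq] at hI'
  obtain ⟨_, h, hh⟩ := hI'
  have h1 := F.act_mul (W := ⟨I, hI.1⟩) (W' := ⟨J, hJ.1⟩) (W'' := ⟨I, hI.1⟩) h g x
  rw [← h1] at hh
  have h2 : ∀ p ∈ I, h.1 p * g.1 p ≠ 0 := by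
    intro p hp hp0
    apply hh
    have e : Hmul h g = 0 := by
      apply Subtype.ext
      funext q
      by_cases hq : q ∈ I
      · rw [H_const (Hmul h g) hI.2 le_rfl le_rfl hq hp]
        exact hp0
      · exact Hleft (Hmul h g) hq
    have h3 : F.act (W := ⟨I, hI.1⟩) (W' := ⟨I, hI.1⟩) (Hmul h g) = 0 := by
      rw [e]
      exact map_zero _
    rw [h3]
    rfl
  apply hJI
  have h4 : I ⊆ J := fun p hp => (Hsupp h (left_ne_zero_of_mul (h2 p hp))).2
  have h5 : LowIn I J := by
    refine ⟨h4, ?_⟩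
    intro p hp q hq hqp
    have e : g.1 q = g.1 p := Heq g hqp hq hp
    have h6 : g.1 q ≠ 0 := by
      rw [e]
      exact right_ne_zero_of_mul (h2 p hp)
    exact (Hsupp g h6).2
  have h7 : UpIn I J := by
    refine ⟨h4, ?_⟩
    intro p hp q hq hpq
    have e : h.1 p = h.1 q := Heq h hpq hp hq
    have h6 : h.1 q ≠ 0 := by
      rw [← e]
      exact left_ne_zero_of_mul (h2 p hp)
    exact (Hsupp h h6).1
  exact (closed_eq hJ.2 hI.2.1 h5 h7).symm

theorem tUNI : SUNI.{u} := by
  intro k _ P _ _ n hS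
  classical
  have : Fintype (Cvx P) := Fintype.ofFinite _
  have key : ∀ (t : ℕ) (F : PM k P), F.FD → tdim Finset.univ F ≤ t → FR n F := by
    intro t
    induction t with
    | zero =>
      intro F hF ht
      apply FR_mono (Nat.zero_le _)
      apply FR_zero
      intro W x
      have h1 : finrank k (F.obj W) ≤ tdim Finset.univ F :=
        Finset.single_le_sum (f := fun W => finrank k (F.obj W)) (fun _ _ => Nat.zero_le _)
          (Finset.mem_univ W)
      have h2 : finrank k (F.obj W) = 0 := by omega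
      have := hF W
      have h3 : Subsingleton (F.obj W) := Module.finrank_zero_iff.1 h2
      exact Subsingleton.elim _ _
    | succ t ih =>
      intro F hF ht
      by_cases hne : ∃ (I : Set P) (hI : IsSpread I) (x : F.obj ⟨I, hI.1⟩), x ≠ 0
      · obtain ⟨I, hI, x, hx0, hx⟩ := exists_soc F hne
        let f := psiS F hI x hx
        have hinj : ∀ W, Function.Injective (f.app W) := psiS_inj F hI x hx hx0
        have hc : CompIn I I := ⟨low_self I, up_self I⟩
        have hfx : f.app ⟨I, hI.1⟩ ⟨1, Or.inl hc⟩ = x := by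
          change (psiS F hI x hx).app ⟨I, hI.1⟩ _ = x
          rw [psiS_val, dif_pos hc, one_smul]
          exact F.act_one x
        apply FR_of_range f
        · apply FR_iso n _ _ (toRange f) _ (hS I hI)
          intro W
          constructor
          · intro a b hab
            apply hinj W
            exact congrArg Subtype.val hab
          · exact LinearMap.surjective_rangeRestrict _
        · apply ih _ (quot_FD hF _)
          have h1 := tdim_quot_lt hF f.range (Finset.mem_univ (⟨I, hI.1⟩ : Cvx P)) ⟨_, hfx⟩ hx0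
          omega
      · push Not at hne
        apply FR_mono (Nat.zero_le _)
        apply FR_zero
        exact van_all F hne
  intro F hF
  exact key _ F hF le_rfl

end Q4.SR
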