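import Pool.Agent.Q4.SR.Fin
import Pool.Agent.Q4.SR.UNI
import Pool.Agent.Q275.SR.Pul
import Pool.Agent.Q275.SR.Cmb
import Pool.Agent.Q121.SR.Fp
import Pool.Agent.Q121.SR.Lsp
import Pool.Agent.Q121.SR.Iso
import Pool.Agent.Q121.SR.Res
import Pool.Agent.Q121.SR.Lli

/-!
# The main theorem of project SR
-/

namespace Q4.SR

universe u

/-- For a nonempty total order `T` and a finite poset `Q` every finitely presented representation
of `T × Q` has a spread-resolution of length at most `2 (4 |Q| + 1) |Q|`. -/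
theorem main (k : Type u) [Field k] (T Q : Type u) [LinearOrder T] [Nonempty T]
    [PartialOrder Q] [Finite Q] (M : PRep k (T × Q)) (hM : IsFP M) :
    HasRes (2 * ((4 * Nat.card Q + 1) * Nat.card Q)) M :=
  fin0 tTK tALL tUNI (Pool.Agent.Q275.SR.tPUL tTK) Pool.Agent.Q275.SR.tCMB
    (Q4.SR.Q121.tRES tTK) Q4.SR.Q121.tFPL Q4.SR.Q121.tLFP Q4.SR.Q121.tLSP Q4.SR.Q121.tLLI
    Q4.SR.Q121.tISO M hM

end Q4.SR
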