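import Pool.Agent.Q4.SR.Stm

/-!
# Final assembly
-/

open Set

namespace Q4.SR

universe u

theorem fr_mono (hT : STK.{u}) {k : Type u} [Field k] {P : Type u} [PartialOrder P] {m n : ℕ}
    (h : m ≤ n) (F : PM k P) (hF : FR m F) : FR n F := by
  induction h with
  | refl => exact hF
  | step _ ih => exact hT.1 _ _ ih

theorem sim_fd {k : Type u} [Field k] {P : Type u} [PartialOrder P] (I : Set P) (hI : Conn I) :
    (Sim k I hI).FD := by
  intro W
  change FiniteDimensional k (Kif k (CompIn I W.1))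
  infer_instance

/-- The uniform bound over `C × Q`. -/
theorem uniform (hT : STK.{u}) (hA : SALL.{u}) (hU : SUNI.{u}) (hP : SPUL.{u}) (hC : SCMB.{u})
    {k : Type u} [Field k] {C Q : Type u} [LinearOrder C] [Finite C] [PartialOrder Q] [Finite Q]
    (F : PM k (C × Q)) (hF : F.FD) :
    FR (2 * ((4 * Nat.card Q + 1) * Nat.card Q)) F := by
  apply hU _ _ F hF
  intro I hI
  obtain ⟨C', iC, iF, pi, lam, I', hcard, hpi, hlam, hgal, hsec, hI', rfl, hcomp⟩ := hC I hI
  have hmpi : Monotone (Prod.map pi (id : Q → Q)) := hpi.prodMap monotone_id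
  have hmlam : Monotone (Prod.map lam (id : Q → Q)) := hlam.prodMap monotone_id
  obtain ⟨_, h2⟩ := hP (k := k) (Prod.map pi (id : Q → Q)) (Prod.map lam (id : Q → Q)) hmpi hmlam
    (by
      rintro ⟨x, q⟩ ⟨y, r⟩
      simp only [Prod.map_apply, Prod.mk_le_mk, id, hgal x y])
    (by
      rintro ⟨y, r⟩
      simp only [Prod.map_apply, id, hsec y])
  obtain ⟨h3, h4⟩ := h2 I' hI'
  apply h4 (fun W => hcomp W.1 W.2) _ hI'.2
  apply fr_mono hT _ _ (hA (Sim k I' hI'.2) (sim_fd I' hI'.2))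
  rw [Nat.card_prod]
  exact Nat.mul_le_mul_left 2 (Nat.mul_le_mul_right _ hcard)

theorem secF_fd {k : Type u} [Field k] {P : Type u} [PartialOrder P] [Finite P] (N : PRep k P)
    (hN : N.FD) : (secF N).FD := by
  intro W
  have : ∀ p, FiniteDimensional k (N.V p) := hN
  change FiniteDimensional k (Sec W N)
  infer_instance

theorem ssum_fd {k : Type u} [Field k] {P : Type u} [PartialOrder P] {n : ℕ} (T : Fin n → Cvx P) :
    (ssum k T).FD := by
  intro p
  change FiniteDimensional k (∀ i, Kif k (p ∈ (T i).1))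
  infer_instance

/-- The identity morphism. -/
def RHom.id {k : Type u} [Field k] {P : Type u} [PartialOrder P] (M : PRep k P) : RHom M M where
  app _ := LinearMap.id
  comm _ _ := rfl

theorem cres_hasRes (hLFP : SLFP.{u}) (hLSP : SLSP.{u}) (hLLI : SLLI.{u})
    {k : Type u} [Field k] {T Q : Type u} [LinearOrder T] [PartialOrder Q] [Finite Q]
    (C : Finset T) (n : ℕ) (N : PRep k (C × Q)) (hN : N.FD) (h : CRes n N) :
    HasRes n (Lx C N) := by
  induction n generalizing N with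
  | zero =>
    obtain ⟨m, S, f, hf⟩ := h
    exact ⟨hLFP C N hN, hLSP C m S N f hf⟩
  | succ n ih =>
    obtain ⟨m, S, N', i, p, hN', hex, hlift, hres⟩ := h
    obtain ⟨i', p', hsp⟩ := hLLI C N' (ssum k S) N i p hex hlift
    exact ⟨Lx C N', Lx C (ssum k S), i', p', hLFP C N hN, hLFP C _ (ssum_fd S),
      hLSP C m S _ (RHom.id _) (fun p => Function.bijective_id), hsp, ih N' hN' hres⟩

theorem fin0 (hT : STK.{u}) (hA : SALL.{u}) (hU : SUNI.{u}) (hP : SPUL.{u}) (hC : SCMB.{u})
    (hR : SRES.{u}) (hF : SFPL.{u}) (hLFP : SLFP.{u}) (hLSP : SLSP.{u}) (hLLI : SLLI.{u})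
    (hI : SISO.{u}) {k : Type u} [Field k] {T Q : Type u} [LinearOrder T] [Nonempty T]
    [PartialOrder Q] [Finite Q] (M : PRep k (T × Q)) (hM : IsFP M) :
    HasRes (2 * ((4 * Nat.card Q + 1) * Nat.card Q)) M := by
  obtain ⟨C, _, N, f, hN, hf⟩ := hF M hM
  have h1 : FR (2 * ((4 * Nat.card Q + 1) * Nat.card Q)) (secF N) :=
    uniform hT hA hU hP hC (secF N) (secF_fd N hN)
  have h2 := hR _ N hN h1
  exact hI _ _ _ f hf (cres_hasRes hLFP hLSP hLLI C _ N hN h2)

end Q4.SR
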