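import Pool.Agent.Q4.SR.DEC

/-!
# Resolutions of the functors `J_m` and `Δ_I`
-/

open Set

namespace Q4.SR

universe u

variable {k : Type u} [Field k] {P : Type u} [PartialOrder P]

theorem FR_mono {m n : ℕ} (h : m ≤ n) (F : PM k P) (hF : FR m F) : FR n F := by
  induction h with
  | refl => exact hF
  | step _ ih => exact FR_succ _ _ ih

open Classical in
theorem del_act (I : Set P) (hI : Conn I) {W W' : Cvx P} (η : H k W.1 W'.1)
    (c : (Del k I hI).obj W') :
    ((Del k I hI).act η c).1 = if LowIn I W.1 then η.1 hI.1.some * c.1 else 0 := rfl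

section

variable [Finite P]

theorem Jm_mem {m : ℕ} {T W : Cvx P} {η : H k W.1 T.1} :
    η ∈ (Jm k m T).S W ↔ ∀ p, η.1 p ≠ 0 → (comp (W.1 ∩ T.1) p).ncard ≤ m := Iff.rfl

/-- The key naturality fact. -/
theorem phi_key {m : ℕ} {T : Cvx P} {I : Set P} (hI : Conn I) (hm : I.ncard = m)
    (hup : UpIn I T.1) {W W' : Cvx P} (η : H k W.1 W'.1) (x : H k W'.1 T.1)
    (hx : x ∈ (Jm k m T).S W') (hW : LowIn I W.1) (hW' : ¬ LowIn I W'.1) {p : P} (hp : p ∈ I) :
    η.1 p * x.1 p = 0 := by
  by_contra hne
  have hc : ∀ q ∈ I, η.1 q * x.1 q ≠ 0 := by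
    intro q hq
    have h1 : (Hmul η x).1 q = (Hmul η x).1 p := H_const (Hmul η x) hI hW.1 hup.1 hq hp
    rw [Hmul_val, Hmul_val] at h1
    rw [h1]
    exact hne
  have hIW' : I ⊆ W'.1 := fun q hq => (Hsupp η (left_ne_zero_of_mul (hc q hq))).2
  have h2 : I ⊆ comp (W'.1 ∩ T.1) p := conn_sub hI (subset_inter hIW' hup.1) hp
  have h3 : (comp (W'.1 ∩ T.1) p).ncard ≤ m := hx p (right_ne_zero_of_mul hne)
  have h4 : comp (W'.1 ∩ T.1) p = I :=
    (Set.eq_of_subset_of_ncard_le h2 (by rw [hm]; exact h3) (Set.toFinite _)).symm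
  apply hW'
  rw [← h4]
  exact comp_low x (right_ne_zero_of_mul hne)

open Classical in
/-- The morphism `J_m(-, T) → Δ_I`. -/
noncomputable def phi {m : ℕ} {T : Cvx P} {I : Set P} (hI : Conn I) (hm : I.ncard = m)
    (hup : UpIn I T.1) : PMHom (Jm k m T).toPM (Del k I hI) where
  app W :=
    { toFun := fun x => ⟨if LowIn I W.1 then x.1.1 hI.1.some else 0, by
        by_cases h : LowIn I W.1
        · exact Or.inl h
        · exact Or.inr (if_neg h)⟩
      map_add' := by
        intro x y
        apply Subtype.ext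
        by_cases h : LowIn I W.1
        · change (if LowIn I W.1 then x.1.1 hI.1.some + y.1.1 hI.1.some else 0) =
            (if LowIn I W.1 then x.1.1 hI.1.some else 0) +
              (if LowIn I W.1 then y.1.1 hI.1.some else 0)
          rw [if_pos h, if_pos h, if_pos h]
        · change (if LowIn I W.1 then x.1.1 hI.1.some + y.1.1 hI.1.some else 0) =
            (if LowIn I W.1 then x.1.1 hI.1.some else 0) +
              (if LowIn I W.1 then y.1.1 hI.1.some else 0)
          rw [if_neg h, if_neg h, if_neg h, add_zero]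
      map_smul' := by
        intro c x
        apply Subtype.ext
        change (if LowIn I W.1 then c * x.1.1 hI.1.some else 0) =
            c * (if LowIn I W.1 then x.1.1 hI.1.some else 0)
        by_cases h : LowIn I W.1
        · rw [if_pos h, if_pos h]
        · rw [if_neg h, if_neg h, mul_zero] }
  comm := by
    intro W W' η x
    apply Subtype.ext
    rw [del_act]
    change (if LowIn I W.1 then η.1 hI.1.some * x.1.1 hI.1.some else 0) =
      if LowIn I W.1 then η.1 hI.1.some * (if LowIn I W'.1 then x.1.1 hI.1.some else 0) else 0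
    by_cases h : LowIn I W.1
    · rw [if_pos h, if_pos h]
      by_cases h' : LowIn I W'.1
      · rw [if_pos h']
      · rw [if_neg h', mul_zero]
        exact phi_key hI hm hup η x.1 x.2 h h' hI.1.some_mem
    · rw [if_neg h, if_neg h]

open Classical in
theorem phi_val {m : ℕ} {T : Cvx P} {I : Set P} (hI : Conn I) (hm : I.ncard = m)
    (hup : UpIn I T.1) (W : Cvx P) (x : (Jm k m T).toPM.obj W) :
    ((phi hI hm hup).app W x).1 = if LowIn I W.1 then x.1.1 hI.1.some else 0 := rfl

/-- The inclusion `J_m ⊆ J_{m+1}`. -/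
def Jinc (k : Type u) [Field k] (m : ℕ) (T : Cvx P) :
    PMHom (Jm k m T).toPM (Jm k (m + 1) T).toPM where
  app W :=
    { toFun := fun x => ⟨x.1, fun p hp => (x.2 p hp).trans (Nat.le_succ m)⟩
      map_add' := fun _ _ => rfl
      map_smul' := fun _ _ => rfl }
  comm := by
    intro W W' η x
    rfl

/-- The spreads with `m` elements which are closed under larger elements in `T`. -/
def Sp (m : ℕ) (T : Cvx P) : Type u := {I : Set P // IsSpread I ∧ I.ncard = m ∧ UpIn I T.1}

theorem jd_ses (m : ℕ) (T : Cvx P) {n : ℕ} (e : Fin n ≃ Sp (m + 1) T) :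
    ∃ p : PMHom (Jm k (m + 1) T).toPM (PM.pi fun j => Del k (e j).1 (e j).2.1.2),
      SES (Jinc k m T) p := by
  classical
  refine ⟨⟨fun W => LinearMap.pi fun j => (phi (e j).2.1.2 (e j).2.2.1 (e j).2.2.2).app W, ?_⟩,
    ?_, ?_, ?_⟩
  · intro W W' η x
    funext j
    exact (phi (e j).2.1.2 (e j).2.2.1 (e j).2.2.2).comm η x
  · intro W x y hxy
    have h : ((Jinc k m T).app W x).1 = ((Jinc k m T).app W y).1 := congrArg Subtype.val hxy
    exact Subtype.ext h
  · intro W x
    constructor
    · intro hx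
      refine ⟨⟨x.1, ?_⟩, Subtype.ext rfl⟩
      intro p hp
      by_contra hcon
      have h1 : (comp (W.1 ∩ T.1) p).ncard = m + 1 := by
        have := x.2 p hp
        omega
      have hpm : p ∈ W.1 ∩ T.1 := Hsupp x.1 hp
      have hsp : IsSpread (comp (W.1 ∩ T.1) p) :=
        ⟨comp_ordC (inter_ord W.2 T.2) p, comp_conn hpm⟩
      obtain ⟨j, hj⟩ := e.surjective ⟨comp (W.1 ∩ T.1) p, hsp, h1, comp_up x.1 hp⟩
      have hj' : (e j).1 = comp (W.1 ∩ T.1) p := congrArg Subtype.val hj
      have h2 : ((phi (k := k) (e j).2.1.2 (e j).2.2.1 (e j).2.2.2).app W x).1 = 0 :=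
        congrArg Subtype.val (congrFun hx j)
      rw [phi_val] at h2
      have h3 : LowIn (e j).1 W.1 := by
        rw [hj']
        exact comp_low x.1 hp
      rw [if_pos h3] at h2
      have h4 : (e j).2.1.2.1.some ∈ comp (W.1 ∩ T.1) p := by
        rw [← hj']
        exact (e j).2.1.2.1.some_mem
      rw [comp_const x.1 h4] at h2
      exact hp h2
    · rintro ⟨y, rfl⟩
      funext j
      apply Subtype.ext
      change ((phi (k := k) (e j).2.1.2 (e j).2.2.1 (e j).2.2.2).app W
        ((Jinc k m T).app W y)).1 = 0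
      rw [phi_val]
      by_cases h : LowIn (e j).1 W.1
      · rw [if_pos h]
        by_contra hne
        have h1 := y.2 _ hne
        have h2 : (e j).1 ⊆ comp (W.1 ∩ T.1) (e j).2.1.2.1.some :=
          conn_sub (e j).2.1.2 (subset_inter h.1 (e j).2.2.2.1) (e j).2.1.2.1.some_mem
        have h3 := Set.ncard_le_ncard h2 (Set.toFinite _)
        have h4 : (e j).1.ncard = m + 1 := (e j).2.2.1
        have h5 := h3.trans h1
        omega
      · rw [if_neg h]
  · intro W c
    let g : Fin n → H k W.1 T.1 := fun j => if h : LowIn (e j).1 W.1 then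
      (c j).1 • ind (e j).1 h.1 (e j).2.2.2.1 h.2 (e j).2.2.2.2 else 0
    have hg : ∀ j p, (g j).1 p = if LowIn (e j).1 W.1 ∧ p ∈ (e j).1 then (c j).1 else 0 := by
      intro j p
      by_cases h : LowIn (e j).1 W.1
      · have h1 : g j = (c j).1 • ind (e j).1 h.1 (e j).2.2.2.1 h.2 (e j).2.2.2.2 := dif_pos h
        rw [h1]
        change (c j).1 * (ind (e j).1 h.1 (e j).2.2.2.1 h.2 (e j).2.2.2.2).1 p = _
        rw [ind_val]
        by_cases hp : p ∈ (e j).1
        · rw [if_pos hp, if_pos ⟨h, hp⟩, mul_one]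
        · rw [if_neg hp, if_neg (fun h' => hp h'.2), mul_zero]
      · have h1 : g j = 0 := dif_neg h
        rw [h1, if_neg (fun h' => h h'.1)]
        rfl
    have hs : ∀ p, (∑ j, g j).1 p = ∑ j, (g j).1 p := by
      intro p
      have h1 : (∑ j, g j).1 = ∑ j, (g j).1 := by
        rw [AddSubmonoidClass.coe_finsetSum]
      rw [h1, Finset.sum_apply]
    have hmem : (∑ j, g j) ∈ (Jm k (m + 1) T).S W := by
      intro p hp
      rw [hs] at hp
      obtain ⟨j, _, hj⟩ := Finset.exists_ne_zero_of_sum_ne_zero hp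
      rw [hg] at hj
      have h1 : LowIn (e j).1 W.1 ∧ p ∈ (e j).1 := by
        by_contra h
        rw [if_neg h] at hj
        exact hj rfl
      rw [closed_eq_comp (e j).2.1.2 h1.1 (e j).2.2.2 h1.2, (e j).2.2.1]
    refine ⟨⟨∑ j, g j, hmem⟩, ?_⟩
    funext j
    apply Subtype.ext
    change ((phi (k := k) (e j).2.1.2 (e j).2.2.1 (e j).2.2.2).app W ⟨∑ j, g j, hmem⟩).1 = (c j).1
    rw [phi_val]
    by_cases h : LowIn (e j).1 W.1
    · rw [if_pos h]
      change (∑ j, g j).1 _ = _
      rw [hs, Finset.sum_eq_single j]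
      · rw [hg, if_pos ⟨h, (e j).2.1.2.1.some_mem⟩]
      · intro i _ hij
        rw [hg]
        apply if_neg
        rintro ⟨h1, h2⟩
        apply hij
        apply e.injective
        apply Subtype.ext
        exact (closed_eq_comp (e i).2.1.2 h1 (e i).2.2.2 h2).symm.trans
          (closed_eq_comp (e j).2.1.2 h (e j).2.2.2 (e j).2.1.2.1.some_mem)
      · intro h'
        exact absurd (Finset.mem_univ j) h'
    · rw [if_neg h]
      exact ((c j).2.resolve_left h).symm

theorem jd_del {m : ℕ} (I : Set P) (hI : IsSpread I) (hm : I.ncard = m + 1)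
    (ih : ∀ T : Cvx P, FR m (Jm k m T).toPM) : FR (m + 1) (Del k I hI.2) := by
  classical
  let T : Cvx P := ⟨I, hI.1⟩
  have hup : UpIn I T.1 := ⟨le_rfl, fun _ _ _ h _ => h⟩
  apply FR_cone m (Jm k m T).toPM (Jm k (m + 1) T).toPM (Del k I hI.2) (Jinc k m T)
    (phi hI.2 hm hup) ⟨?_, ?_, ?_⟩ (ih T)
  · -- `J_{m+1}(-, I)` is representable
    have h1 : ∀ (W : Cvx P) (x : H k W.1 T.1), x ∈ (Jm k (m + 1) T).S W := by
      intro W x p _
      rw [← hm]
      exact Set.ncard_le_ncard (fun q hq => hq.1.2) (Set.toFinite _)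
    let α : PMHom (fre k fun _ : Fin 1 => T) (Jm k (m + 1) T).toPM :=
      { app := fun W =>
          { toFun := fun x => ⟨x 0, h1 W (x 0)⟩
            map_add' := fun _ _ => rfl
            map_smul' := fun _ _ => rfl }
        comm := by
          intro W W' η x
          rfl }
    apply FR_mono (Nat.zero_le _)
    refine ⟨1, fun _ => T, α, ?_⟩
    intro W
    constructor
    · intro x y hxy
      funext i
      have h2 : (α.app W x).1 = (α.app W y).1 := congrArg Subtype.val hxy
      have h3 : i = 0 := Subsingleton.elim _ _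
      subst h3
      exact h2
    · rintro ⟨y, hy⟩
      exact ⟨fun _ => y, Subtype.ext rfl⟩
  · intro W x y hxy
    have h : ((Jinc k m T).app W x).1 = ((Jinc k m T).app W y).1 := congrArg Subtype.val hxy
    exact Subtype.ext h
  · intro W x
    constructor
    · intro hx
      refine ⟨⟨x.1, ?_⟩, Subtype.ext rfl⟩
      intro p hp
      by_contra hcon
      have h1 : (comp (W.1 ∩ T.1) p).ncard = m + 1 := by
        have := x.2 p hp
        omega
      have h5 : comp (W.1 ∩ T.1) p = I :=
        Set.eq_of_subset_of_ncard_le (fun q hq => hq.1.2) (by rw [hm, h1]) (Set.toFinite _)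
      have h2 : ((phi (k := k) hI.2 hm hup).app W x).1 = 0 := congrArg Subtype.val hx
      rw [phi_val] at h2
      have h3 : LowIn I W.1 := by
        have := comp_low x.1 hp
        rw [h5] at this
        exact this
      rw [if_pos h3] at h2
      have h4 : hI.2.1.some ∈ comp (W.1 ∩ T.1) p := by
        rw [h5]
        exact hI.2.1.some_mem
      rw [comp_const x.1 h4] at h2
      exact hp h2
    · rintro ⟨y, rfl⟩
      apply Subtype.ext
      rw [phi_val]
      by_cases h : LowIn I W.1
      · rw [if_pos h]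
        by_contra hne
        have h1 := y.2 _ hne
        have h2 : I ⊆ comp (W.1 ∩ T.1) hI.2.1.some :=
          conn_sub hI.2 (subset_inter h.1 hup.1) hI.2.1.some_mem
        have h3 := Set.ncard_le_ncard h2 (Set.toFinite _)
        rw [hm] at h3
        omega
      · rw [if_neg h]
        rfl
  · intro W c
    by_cases h : LowIn I W.1
    · refine ⟨⟨c.1 • ind I h.1 hup.1 h.2 hup.2, ?_⟩, ?_⟩
      · intro p _
        rw [← hm]
        exact Set.ncard_le_ncard (fun q hq => hq.1.2) (Set.toFinite _)
      · apply Subtype.ext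
        rw [phi_val, if_pos h]
        change c.1 * (ind (k := k) I h.1 hup.1 h.2 hup.2).1 _ = c.1
        rw [ind_val, if_pos hI.2.1.some_mem, mul_one]
    · refine ⟨0, ?_⟩
      apply Subtype.ext
      rw [phi_val, if_neg h]
      exact (c.2.resolve_left h).symm

theorem jd_main (m : ℕ) : (∀ T : Cvx P, FR m (Jm k m T).toPM) ∧
    (∀ (I : Set P) (hI : IsSpread I), I.ncard = m → FR m (Del k I hI.2)) := by
  induction m with
  | zero =>
    constructor
    · intro T
      apply FR_zero
      intro W x
      apply Subtype.ext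
      apply Subtype.ext
      funext p
      by_contra hp
      have h1 := x.2 p hp
      have h2 : comp (W.1 ∩ T.1) p = ∅ := by
        rw [← Set.ncard_eq_zero (Set.toFinite _)]
        omega
      have h3 : p ∈ comp (W.1 ∩ T.1) p := self_mem_comp (Hsupp x.1 hp)
      rw [h2] at h3
      exact h3
    · intro I hI h0
      exfalso
      rw [Set.ncard_eq_zero (Set.toFinite _)] at h0
      have := hI.2.1
      rw [h0] at this
      exact Set.not_nonempty_empty this
  | succ m ih =>
    have hD : ∀ (I : Set P) (hI : IsSpread I), I.ncard = m + 1 → FR (m + 1) (Del k I hI.2) :=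
      fun I hI hm => jd_del I hI hm ih.1
    refine ⟨?_, hD⟩
    intro T
    have : Finite (Sp (m + 1) T) := by
      unfold Sp
      infer_instance
    obtain ⟨n, ⟨e⟩⟩ := Finite.exists_equiv_fin (Sp (m + 1) T)
    obtain ⟨p, hp⟩ := jd_ses (k := k) m T e.symm
    apply FR_ses (m + 1) _ _ _ _ p hp (FR_succ _ _ (ih.1 T))
    apply FR_pi
    intro j
    exact hD (e.symm j).1 (e.symm j).2.1 (e.symm j).2.2.1

end

theorem tJD : SJD.{u} := by
  intro k _ P _ _
  exact ⟨fun m T => (jd_main m).1 T, fun I hI => (jd_main I.ncard).2 I hI rfl⟩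

end Q4.SR
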