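import Pool.Agent.Q4.SR.Def3

/-!
# Project SR: spread resolutions over `T × Q` (MP_467d59_al), lemma jobs

Goal: for a total order `T` and a finite poset `Q` every finitely presented representation of
`T × Q` has a spread-resolution of length at most `2 ((4 |Q| + 1) |Q|)`.

Strategy. (1) Finite posets `P`: every finite-dimensional contravariant linear functor on the
category of convex subsets has a free resolution of length `≤ 2 |P|` (heredity chain by the size
of connected sets). (2) Over `C × Q` with `C` a finite chain all simple functors are pulled back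
from `C' × Q` with `|C'| ≤ 4 |Q| + 1`, so the bound does not depend on `C`. (3) Representations of
`T × Q` come from `C × Q` by the functor `Lx`, which preserves spread-resolutions.
-/

open Set

namespace Q4.SR

universe u

/-- **Job TK** (toolkit). (a) `FR n F → FR (n + 1) F`; (b) `FR` is invariant under isomorphism;
(c) horseshoe: if `0 → A → B → C → 0` is exact, `FR n A` and `FR n C`, then `FR n B`;
(d) cone: if `0 → A → B → C → 0` is exact, `FR n A` and `FR (n + 1) B`, then `FR (n + 1) C`;
(e) finite products: if all `F i` are `FR n` then so is `PM.pi F`.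

Proof. Maps out of free functors: a morphism `fre k T → F` is the same as elements
`x i ∈ F.obj (T i)` (Yoneda: `η ↦ ∑ i, F.act (η i) (x i)`); hence morphisms from free functors
lift along pointwise surjective morphisms `B → C` (lift the images of the identities `Hone`).
(b) compose. (a) for `n = 0`: `K = fre k (Fin 0)` (the zero functor), identity of the free functor
composed with the isomorphism; for `n + 1` use induction on `K`. (c) `n = 0`: `C` is free, lift
the isomorphism `fre T_C → C` to `B`, then `fre (T_A ++ T_C) → B` is bijective (`Fin.append`,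
`Fin.sum_univ_add` or `Fin.addCases`). `n + 1`: `P_A → A`, `P_C → C` with kernels `K_A`, `K_C`; lift
`P_C → B`; `P_A ⊕ P_C → B` is surjective, its kernel `K_B` has `0 → K_A → K_B → K_C → 0` (snake), so
`FR n K_B` by induction. (d) Let `p_B : P_B → B` be surjective with kernel `K_B`, `FR n K_B`. The kernel
`K_C` of `P_B → B → C` has `0 → K_B → K_C → A → 0` (`K_C → A` is `p_B` followed by `B ⊇ A`,
surjective), so `FR n K_C` by (c). (e) induction on the number of factors with (c). Kernels and
such are available as `PMHom.ker`, `PM.Sub.toPM`, `PM.Sub.incl`. -/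
def STK : Prop :=
  ∀ {k : Type u} [Field k] {P : Type u} [PartialOrder P],
    (∀ (n : ℕ) (F : PM k P), FR n F → FR (n + 1) F) ∧
    (∀ (n : ℕ) (F G : PM k P) (f : PMHom F G), (∀ W, Function.Bijective (f.app W)) →
      FR n F → FR n G) ∧
    (∀ (n : ℕ) (A B C : PM k P) (i : PMHom A B) (p : PMHom B C), SES i p → FR n A → FR n C →
      FR n B) ∧
    (∀ (n : ℕ) (A B C : PM k P) (i : PMHom A B) (p : PMHom B C), SES i p → FR n A →
      FR (n + 1) B → FR (n + 1) C) ∧
    (∀ (n m : ℕ) (F : Fin m → PM k P), (∀ i, FR n (F i)) → FR n (PM.pi F))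

/-- **Job DEC** (decomposition of a morphism into component indicators). Let `P` be finite,
`η : k_W → k_T`, and `M` a subspace of `Hom(k_W, k_T)` which contains the indicator of every spread
`Z` with `LowIn Z W`, `UpIn Z T` and `η ≠ 0` on `Z`. Then `η ∈ M`.

Proof. For `p` with `η p ≠ 0` the component `Z = comp (W ∩ T) p` is a spread: connected by
definition, convex because `W ∩ T` is convex and a chain between two elements stays in the
component; `η` is constant on `Z` (`H_const`); if `y ∈ W`, `y ≤ x ∈ Z` then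
`η y = η x ≠ 0` (`Heq`), so `y ∈ T`, so `y ∈ Z`; the same for larger elements in `T`. Two
components are equal or disjoint. So `η` is the sum over the finite set of components `Z` on which
it does not vanish of `(value) • ind Z`. (One can also use induction on the cardinality of the
support of `η`: subtract `η p • ind Z`.) -/
def SDEC : Prop :=
  ∀ {k : Type u} [Field k] {P : Type u} [PartialOrder P] [Finite P] (W T : Cvx P)
    (η : H k W.1 T.1) (M : Submodule k (H k W.1 T.1)),
    (∀ (Z : Set P) (h1 : LowIn Z W.1) (h2 : UpIn Z T.1), IsSpread Z → (∀ p ∈ Z, η.1 p ≠ 0) →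
      ind Z h1.1 h2.1 h1.2 h2.2 ∈ M) → η ∈ M

/-- **Job JD** (from TK and DEC). For finite `P`: `FR m (J_m(-, T))` for all `T`, and
`FR |I| Δ_I` for every spread `I`.

Proof. Induction on `m`. `J_0 = 0` (a component of `p` contains `p`, so has at least one
element); the zero functor is free (`m = 0` in `fre`). Let `m ≥ 1`, and `|I| = m`. The morphism
`Hom(-, I) → Δ_I`, `η ↦ η(p_I)` if `LowIn I W` and `0` otherwise, is surjective (indicator of `I`),
and its kernel is `J_{m-1}(-, I)`: a component `Z` of `W ∩ I` with `η ≠ 0` on it is closed under smaller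
elements in `W` and larger elements in `I` (`Heq`); if it has `m` elements it is `I`, so `LowIn I W` and
`η(p_I) ≠ 0`. So `FR m Δ_I` by definition of `FR` (one-element family `T = I`; use TK (a), (b)).
Next, let `I_1, …, I_r` be the spreads with `m` elements and `UpIn I_j T`. The sequence
`0 → J_{m-1}(-, T) → J_m(-, T) → ∏_j Δ_{I_j} → 0`, `η ↦ (η(p_{I_j}) if LowIn I_j W, else 0)_j` is exact:
the kernel as before; surjective, since `∑_j c_j ind I_j` (over the `j` with `LowIn I_j W`) is in `J_m`:
those `I_j` are components of `W ∩ T`, so they are disjoint. Naturality: if `LowIn I W`, `LowIn I W'`,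
`θ : k_W' → k_W`, then `(θ η)(p) = θ(p) η(p)`; if `LowIn I W'` but not `LowIn I W`, then for
`η ∈ J_m(W)`: if `(θ η)(p) ≠ 0` then `comp (W' ∩ T) p = I ⊆ comp (W ∩ T) p`, which has at most `m`
elements, so equality, and then `LowIn I W` by `Heq`, contradiction. Now use TK (c), (a), (e). -/
def SJD : Prop :=
  ∀ {k : Type u} [Field k] {P : Type u} [PartialOrder P] [Finite P],
    (∀ (m : ℕ) (T : Cvx P), FR m (Jm k m T).toPM) ∧
    (∀ (I : Set P) (hI : IsSpread I), FR I.ncard (Del k I hI.2))

/-- **Job ALL** (from TK, DEC and JD). For finite `P` every `F` with finite-dimensional values is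
`FR (2 |P|)`.

Proof. Let `N = |P|`. Downward induction on `m ≤ N`: every finite-dimensional `F` with
`F(I) = 0` for all spreads `I` with `|I| ≤ m` is `FR (2 N - m)`. For `m = N`: `F(I) = 0` for all
spreads, and then `F = 0`: for `x ∈ F(W)` the set of `η ∈ Hom(W, W)` with `F(η) x = 0` is a subspace
containing the indicators of the `Z` with `LowIn Z W`, `UpIn Z W` (they factor through `F(Z) = 0`), so
it contains the identity by DEC. Step from `m` to `m - 1` (`1 ≤ m ≤ N`): let `I_1, …, I_r` list the
spreads with `m` elements, each repeated `dim F(I)` times, with a basis `x_j` of each `F(I)`. Define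
`φ : ∏_j Δ_{I_j} → F` by `(c_j)_j ↦ ∑_j c_j F(ind I_j : W → I_j) x_j` (over `j` with `LowIn I_j W`).
Natural: for `θ : k_W' → k_W` and `LowIn I W`, `θ · ind I` is a morphism `W' → I`, and
`F(θ · ind I) x = θ(p_I) F(ind I : W' → I) x` if `LowIn I W'`, and `= 0` otherwise: by DEC applied to
`θ · ind I` it is a combination of indicators of `Z` with `LowIn Z W'`, `UpIn Z I`; if `Z ≠ I` then
`|Z| < m` and the term factors through `F(Z) = 0`; if `Z = I` then `LowIn I W'`. For `|I'| ≤ m` the map
`φ(I')` is bijective (`LowIn I_j I'` forces `I_j = I'`, as `|I_j| = m`). So `K = ker φ` and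
`C = coker φ` satisfy the hypothesis for `m`: `FR (2N - m)`. By JD and TK (e), (a) the product is
`FR (2 N - m + 1)` (as `m ≤ 2N - m + 1`); so `range φ` is `FR (2N - m + 1)` by TK (d) and `F` is
`FR (2N - m + 1)` by TK (c), (a). -/
def SALL : Prop :=
  ∀ {k : Type u} [Field k] {P : Type u} [PartialOrder P] [Finite P] (F : PM k P), F.FD →
    FR (2 * Nat.card P) F

/-- **Job UNI** (from TK and DEC). Let `P` be finite. If all simple functors `S_I` are `FR n` then
every `F` with finite-dimensional values is `FR n`.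

Proof. Induction on the sum of the dimensions of `F(W)` over the (finitely many) convex `W`. If it
is `0` then `F` is zero, hence free. Otherwise some `F(I) ≠ 0` with `I` a spread (DEC as in ALL).
CLAIM: there are a spread `I` and `0 ≠ x ∈ F(I)` with `F(θ) x = 0` for all spreads `J ≠ I` and all
`θ : k_J → k_I`. Otherwise one finds for every `n` spreads `I_0, …, I_n`, `0 ≠ x_j ∈ F(I_j)` and
`θ_j : I_{j+1} → I_j`, `I_{j+1} ≠ I_j`, `x_{j+1} = F(θ_j) x_j`; since there are finitely many spreads
`I_a = I_b` for some `a < b`. The composite `g : I_b → … → I_a` is not zero (`F(g) x_a = x_b ≠ 0`), hence it is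
a nonzero constant on `I_a = I_b` (`H_const`). So all `θ_j` are nonzero on `I_a`, `I_a ⊆ I_{a+1}`,
`θ_a : I_{a+1} → I_a` nonzero on `I_a` gives `LowIn I_a I_{a+1}` and the composite `I_b = I_a → I_{a+1}`
gives `UpIn I_a I_{a+1}`; as `I_{a+1}` is connected, `I_{a+1} = I_a`, contradiction.
Given `x`, the map `S_I(W) → F(W)`, `c ↦ c F(ind I : W → I) x` (if `CompIn I W`) is natural: for
`θ : k_W' → k_W`, `CompIn I W`: `F(θ · ind I) x` is by DEC a combination of terms for `Z` with
`LowIn Z W'`, `UpIn Z I`; those with `Z ≠ I` factor through `F(Z ⊆ I) x = 0`; if `Z = I` but `I` is not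
closed under larger elements in `W'`, factor `ind I : W' → I` through the component `J ≠ I` of `W'`
containing `I`: again `0`. It is injective, because `CompIn I W` makes `ind I : I → W` a morphism, and
`I → W → I` is the identity. The cokernel has smaller total dimension. Use TK (c). -/
def SUNI : Prop :=
  ∀ {k : Type u} [Field k] {P : Type u} [PartialOrder P] [Finite P] (n : ℕ),
    (∀ (I : Set P) (hI : IsSpread I), FR n (Sim k I hI.2)) → ∀ F : PM k P, F.FD → FR n F

/-- **Job PUL**. Let `pi : P → P'`, `lam : P' → P` be monotone maps of posets with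
`pi x ≤ y ↔ x ≤ lam y` and `pi (lam y) = y`. (a) Pulling back along `lam` preserves `FR n`. (b) If `I'` is
a spread in `P'` then `I = pi⁻¹ I'` is a spread in `P`; and if moreover
`CompIn I' (lam⁻¹ W) ↔ CompIn I W` for all convex `W ⊆ P`, then `FR n S_{I'}` implies `FR n S_I`.

Proof. (a) `pull lam` is exact (pointwise), so it is enough that `pull lam (Hom(-, T))` is isomorphic
to `Hom(-, pi⁻¹ T)` for convex `T ⊆ P'`: `η ↦ η ∘ lam` is a bijection
`Hom(W, pi⁻¹ T) → Hom(lam⁻¹ W, T)`. Injective: for `x ∈ W ∩ pi⁻¹ T` we have `x ≤ lam (pi x)`, and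
`lam (pi x) ∈ pi⁻¹ T`, so `η x = η (lam (pi x))` by `Heq`. Surjective: given
`θ ∈ Hom(lam⁻¹ W, T)` put `η x = θ (pi x)` if `x ∈ W`, and `0` otherwise. Support: if `x ∈ W` and
`θ (pi x) ≠ 0` then `pi x ∈ T`. For `x ≤ y`, `x ∈ W`, `pi y ∈ T`: if `y ∈ W` and
`lam (pi x) ∈ W` then `θ (pi x) = θ (pi y)` by `Heq`; if `y ∉ W` we need `θ (pi x) = 0`: otherwise
`lam (pi x) ∈ W`, and `θ (pi x) = θ (pi y)` (`Heq`), so `lam (pi y) ∈ W`, and
`x ≤ y ≤ lam (pi y)` gives `y ∈ W` by convexity; if `y ∈ W` and `lam (pi x) ∉ W` then `θ (pi x) = 0` and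
`θ (pi y) = 0`: otherwise `lam (pi y) ∈ W`, and `x ≤ lam (pi x) ≤ lam (pi y)` gives
`lam (pi x) ∈ W`. (Then `FR` by induction on `n`.) (b) Convexity of `pi⁻¹ I'` is clear; connected:
every `x` is comparable to `lam (pi x)` inside `pi⁻¹ I'`, and `lam` maps zigzags to zigzags. The functors
`pull lam S_{I'}` and `S_I` are isomorphic: both are `k` on the `W` with `CompIn I W`; a morphism acts by
its value at `lam p_{I'}` resp. `p_I`, which agree by `H_const` when `I` is contained in both sides. Use
TK (b). -/
def SPUL : Prop :=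
  ∀ {k : Type u} [Field k] {P P' : Type u} [PartialOrder P] [PartialOrder P']
    (pi : P → P') (lam : P' → P) (_ : Monotone pi) (hlam : Monotone lam),
    (∀ x y, pi x ≤ y ↔ x ≤ lam y) → (∀ y, pi (lam y) = y) →
    (∀ (n : ℕ) (F : PM k P'), FR n F → FR n (pull lam hlam F)) ∧
    ∀ (I' : Set P') (_ : IsSpread I'), IsSpread (pi ⁻¹' I') ∧
      ((∀ W : Cvx P, CompIn I' (lam ⁻¹' W.1) ↔ CompIn (pi ⁻¹' I') W.1) →
        ∀ (n : ℕ) (h1 : Conn I') (h2 : Conn (pi ⁻¹' I')), FR n (Sim k I' h1) →
          FR n (Sim k (pi ⁻¹' I') h2))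

/-- **Job CMB** (combinatorics). Let `C` be a finite chain, `Q` a finite poset and `I ⊆ C × Q` a
spread. There are a finite chain `C'` with at most `4 |Q| + 1` elements, monotone maps
`pi : C → C'`, `lam : C' → C` with `pi x ≤ y ↔ x ≤ lam y`, `pi (lam y) = y`, and a spread `I'` in
`C' × Q` with `I = (pi × id)⁻¹ I'` and, for all convex `W ⊆ C × Q`,
`CompIn I' ((lam × id)⁻¹ W) ↔ CompIn I W`.

Proof. For `q` with `I_q = {c : (c, q) ∈ I} ≠ ∅` let `a_q = min I_q`, `b_q = max I_q`
(`I_q = [a_q, b_q]` by convexity). Let `C' ⊆ C` consist of the least element of `C` and, for all such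
`q`, of `a_q`, its successor `a_q⁺`, `b_q⁺` and `b_q⁺⁺` (those which exist). `pi c` is the largest
element of `C'` below `c`, and `lam d` the largest element of the block of `d`, i.e. the largest `c`
with `pi c = d`. (Formally one can take `C'` as a subtype given by a `Finset`.)
`I = (pi × id)⁻¹ I'` with `I' = (lam × id)⁻¹ I`: as `a_q, b_q⁺ ∈ C'`, every interval `[a_q, b_q]` is a
union of blocks. `I'` is convex and connected (image of `I` under `pi × id`).
`⇐`: if `CompIn I W` then `CompIn I' ((lam × id)⁻¹ W)`, since `x ∈ I' ↔ (lam × id) x ∈ I` and `lam` is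
monotone. `⇒`: assume `CompIn I' W'`, where `W' = (lam × id)⁻¹ W`. The block of `a_q` is `{a_q}` (its
successor is in `C'`), so `(a_q, q) ∈ W`; the block containing `b_q` ends at `b_q`, so
`(b_q, q) ∈ W`; by convexity of `W` `I ⊆ W`. Let `w = (t, q) ∈ W` be comparable with
`i = (t0, q0) ∈ I`; we show `w ∈ I`. Suppose not.
(i) `q = q0`, `t > b_q`: then `(b_q⁺, q) ∈ W` by convexity, the block of `b_q⁺` is `{b_q⁺}`, so
`(pi b_q⁺, q) ∈ W'` is above `(pi b_q, q) ∈ I'`, so in `I'`, so `(b_q⁺, q) ∈ I`, contradiction.
(i') `q = q0`, `t < a_q`: the predecessor `a_q⁻` satisfies `(a_q⁻, q) ∈ W`, it is the last element of its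
block, `(pi a_q⁻, q) ∈ W'` is below `(pi a_q, q) ∈ I'`, so in `I'`, so `(a_q⁻, q) ∈ I`, contradiction.
(ii) `w ≥ i`, `q > q0`: if `t > b_{q0}` then `(b_{q0}⁺, q0) ∈ W` (between `i` and `w`): contradiction by
(i). So `t ≤ b_{q0}`; also `t ≥ t0 ≥ a_{q0}`, `(a_{q0}, q)` lies between `(a_{q0}, q0) ∈ W` and `w`, so
`(a_{q0}, q) ∈ W`; the block of `a_{q0}` is a singleton, so `(pi a_{q0}, q) ∈ W'` is above
`(pi a_{q0}, q0) ∈ I'`, so in `I'` and `(a_{q0}, q) ∈ I`; then `w ≥ (a_{q0}, q)` in the row of `q`:
contradiction by (i). (ii') `w ≤ i`, `q < q0`: if `t < a_{q0}` then `(a_{q0}⁻, q0) ∈ W`: (i'). So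
`t ≥ a_{q0}`; `(b_{q0}, q)` lies between `w` and `(b_{q0}, q0) ∈ W`, so it is in `W`; `b_{q0}` is last in
its block, so `(pi b_{q0}, q) ∈ W'`, below `(pi b_{q0}, q0) ∈ I'`, so in `I'`, `(b_{q0}, q) ∈ I`, and
`w ≤ (b_{q0}, q)`: contradiction by (i'). -/
def SCMB : Prop :=
  ∀ {C Q : Type u} [LinearOrder C] [Finite C] [PartialOrder Q] [Finite Q] (I : Set (C × Q)),
    IsSpread I → ∃ (C' : Type u) (_ : LinearOrder C') (_ : Finite C') (pi : C → C') (lam : C' → C)
      (I' : Set (C' × Q)), Nat.card C' ≤ 4 * Nat.card Q + 1 ∧ Monotone pi ∧ Monotone lam ∧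
      (∀ x y, pi x ≤ y ↔ x ≤ lam y) ∧ (∀ y, pi (lam y) = y) ∧ IsSpread I' ∧
      I = (Prod.map pi id) ⁻¹' I' ∧
      ∀ W : Set (C × Q), W.OrdConnected →
        (CompIn I' ((Prod.map lam id) ⁻¹' W) ↔ CompIn I W)

/-- **Job RES** (from functors back to representations). Let `P` be finite and `N` a
finite-dimensional representation with `FR n (secF N)`. Then `CRes n N`.

Proof. `Sec W (ssum k T)` is isomorphic to `∏_i Hom(W, T_i) = (fre k T).obj W`
(`η ↦ (p ↦ (η_i p)_i)`), naturally in `W`. A morphism `fre k T → secF N` is given by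
`x_i ∈ Sec (T_i) N` and gives a morphism `ssum k T → N`, `(c_i)_i ↦ ∑ c_i x_i(p)`, at `p`. For
`W = Ici p` (convex) evaluation at `p` is a bijection `Sec (Ici p) N → N.V p`. `n = 0`: the
bijectivity of `fre k T → secF N` at `Ici p` gives that `ssum k T → N` is bijective at `p`. `n + 1`: given
`0 → K → fre k T → secF N → 0` with `FR n K`, let `g : ssum k T → N` be the corresponding morphism,
surjective by evaluation at `Ici p`; `N' = ker g` (a subrepresentation of `ssum k T`),
finite-dimensional. `secF N'` is isomorphic to `K`: both are the kernel of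
`Sec W (ssum k T) → Sec W N`. So `FR n (secF N')` by TK (b) and `CRes n N'` by induction. The lifting of
sections is the surjectivity of `fre k T → secF N`. -/
def SRES : Prop :=
  ∀ {k : Type u} [Field k] {P : Type u} [PartialOrder P] [Finite P] (n : ℕ) (N : PRep k P),
    N.FD → FR n (secF N) → CRes n N

/-- **Job FPL** (finitely presented representations of `T × Q` come from `C × Q`). If `T` is a
nonempty linear order, `Q` a finite poset and `M` a finitely presented representation of `T × Q`, then
there are a nonempty finite `C ⊆ T`, a finite-dimensional representation `N` of `C × Q` and an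
isomorphism `Lx C N → M`.

Proof. Take generators `a_i = (t_i, q_i)` and relations at `b_j = (t'_j, q'_j)`, and a nonempty finite
`C` containing all `t_i`, `t'_j`. Let `N` be the restriction of `M` to `C × Q` (values
`M.V (c, q)`, finite-dimensional as a quotient of the finite sum). The map
`(Lx C N)(t, q) = M(fl t, q) → M(t, q)` (and `0 → M(t, q)` if no `c ≤ t`) is natural. It is bijective: for
`A = ssum (upC (a_i))` the map `A(fl t, q) → A(t, q)` is bijective, since `a_i ≤ (t, q)` iff
`a_i ≤ (fl t, q)` (as `t_i ∈ C`), and `A(t, q) = 0` if no element of `C` is `≤ t`; the same for `B`; and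
`M(x) = coker (B(x) → A(x))`. -/
def SFPL : Prop :=
  ∀ {k : Type u} [Field k] {T Q : Type u} [LinearOrder T] [Nonempty T] [PartialOrder Q] [Finite Q]
    (M : PRep k (T × Q)), IsFP M → ∃ (C : Finset T) (_ : C.Nonempty) (N : PRep k (C × Q))
      (f : RHom (Lx C N) M), N.FD ∧ ∀ p, Function.Bijective (f.app p)

/-- **Job LFP** (`Lx` of a finite-dimensional representation is finitely presented). 

Proof. Let `e_1, …, e_m` list bases of all `N.V x`, `x ∈ C × Q` (finitely many, finite-dimensional), `e_i`
at `x_i`; the map `A = ssum (upC x_i) → Lx C N` (positions in `T × Q`) sending the `i`-th generator to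
`e_i` is surjective (for `(t, q)` with `Has C t` use the `e_i` at `(fl t, q)`, and
`upC x_i` contains `(t, q)`). Its kernel at `(t, q)` is the kernel at `(fl t, q)` (the support of `A` only
depends on `fl t`), so it is generated by the kernels at the finitely many `x ∈ C × Q`, which are
finite-dimensional: take `b_j` running through bases of those kernels. -/
def SLFP : Prop :=
  ∀ {k : Type u} [Field k] {T Q : Type u} [LinearOrder T] [PartialOrder Q] [Finite Q]
    (C : Finset T) (N : PRep k (C × Q)), N.FD → IsFP (Lx C N)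

/-- **Job LSP** (`Lx` of a sum of indicator representations is a finite sum of spread
representations).

Proof. (1) For finite `P` and convex `W ⊆ P`, `k_W` is isomorphic to the direct sum of the `k_Z`, where
`Z` runs over the finitely many components of `W` (all spreads); so we may assume that all `T_i` are
spreads in `C × Q`. (2) `Lx C (ssum k T)` is isomorphic to `ssum k T'` with
`T'_i = {(t, q) : Has C t and (fl t, q) ∈ T_i}`, which is convex (`fl` is monotone; if
`Has C t` and `t ≤ t'` then `Has C t'`) and connected (every `(t, q) ∈ T'_i` is above `(fl t, q) ∈ T'_i`,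
and `C × Q ⊆ T × Q` embeds zigzags of `T_i` into `T'_i`). -/
def SLSP : Prop :=
  ∀ {k : Type u} [Field k] {T Q : Type u} [LinearOrder T] [PartialOrder Q] [Finite Q]
    (C : Finset T) (m : ℕ) (S : Fin m → Cvx (C × Q)) (N : PRep k (C × Q)) (f : RHom (ssum k S) N),
    (∀ p, Function.Bijective (f.app p)) → IsSpreadSum (Lx C N)

/-- **Job LLI** (`Lx` preserves short exact sequences and lifting of sections). Let
`0 → A → B → N → 0` be a short exact sequence of representations of `C × Q` such that for every convex
`W ⊆ C × Q` sections over `W` lift from `N` to `B`. Then the sequence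
`0 → Lx A → Lx B → Lx N → 0` (with the obvious maps) is exact in the spread exact structure.

Proof. Exactness is pointwise. Let `S ⊆ T × Q` be convex and `h` a morphism `k_S → Lx N`, i.e. a
section `h` of `Lx N` over `S` (`h(p)` is the image of `1`, and `h(p) = 0` for `p ∉ S`); it satisfies
`map (h p) = h p'` whenever `p ≤ p'`, `p ∈ S`. For `c ∈ C` let `blk c = {t : Has C t, fl t = c}`. Every
`t ∈ T` with `Has C t` lies in `blk (fl t)`; for `t, t' ∈ blk c` also `max t t' ∈ blk c`; if
`t ∈ blk c`, `t' ∈ blk c'`, `c < c'` then `t < t'`. Inside a block the maps of `Lx N` are the identity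
(`N.map_refl`). If `¬ Has C s` then `(Lx N)(s, r) = 0` and `s < t` for all `t` with `Has C t`. Let
`W` be the set of `(c, q) ∈ C × Q` with
(a) for every `t ∈ blk c` there is `t' ∈ blk c`, `t ≤ t'`, with `(t', q) ∈ S`;
(b) there is no `(s, r) ∈ S` with `¬ Has C s` and `r ≤ q`.
`W` is convex: let `(c, q) ≤ (c1, q1) ≤ (c2, q2)` with ends in `W`; (b) is clear. (a): given
`t1 ∈ blk c1` take `(t0, q) ∈ S` with `t0 ∈ blk c`, put `t' = max t1 t0` if `c = c1` and `t' = t1` if
`c < c1`, and take `(t2, q2) ∈ S` in the block of `c2` with `t2 ≥ t'`; then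
`(t0, q) ≤ (t', q1) ≤ (t2, q2)`, so `(t', q1) ∈ S`.
Define `n(c, q) ∈ N(c, q)` for `(c, q) ∈ W` as the value `h(t, q) ∈ N(fl t, q)` (transported by
`N.map (fl t, q) ≤ (c, q)`) for any `(t, q) ∈ S` with `t ∈ blk c` (independent of `t`, since the
blocks have identity maps), and `0` outside `W`. It is a section of `N` over `W`: let
`(c, q) ≤ (c', q')`, `(c, q) ∈ W`, `(t, q) ∈ S`, `t ∈ blk c`. If `(c', q') ∈ W` choose `(t', q') ∈ S` with
`t' ∈ blk c'`, `t' ≥ t`: `h(t', q')` is the image of `h(t, q)`. If (a) fails for `(c', q')` there is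
`t1 ∈ blk c'` with `(t', q') ∉ S` for all `t' ≥ t1` in `blk c'`; with `t' = max t t1` (`t1` if `c < c'`) the
image of `h(t, q)` at `(t', q')` is `h(t', q') = 0`. If (b) fails for `q'`, with `(s, r)`, then
`h(t', q') = map (h(s, r)) = 0` for all `t' ∈ blk c'`; take `t' ≥ t`.
Lift `n` to a section `b` of `B` over `W` and put `h'(t, q) = b(fl t, q)` if `(t, q) ∈ S` and
`Has C t`, and `0` otherwise. (1) `h'` maps to `h`: let `(t, q) ∈ S`, `Has C t`; if `(fl t, q) ∈ W` this is
the definition of `n`. If not, `h(t, q) = 0`: if (a) fails with `t1`, then `h(t, q)` maps (by an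
identity map) to `h(max t t1, q) = 0`; if (b) fails, `h(t, q)` is the image of `h(s, r) = 0`.
(2) `h'` is a section over `S`: let `p = (t, q) ∈ S`, `p ≤ p' = (t', q')`. If `¬ Has C t`: the image is
`0`, and `h'(p') = 0`, because (b) fails for `q'` (witness `p`). If `Has C t` and `(fl t, q) ∈ W`: the image
of `b(fl t, q)` is `b(fl t', q')`; this is `h'(p')` if `p' ∈ S`; if `p' ∉ S` then `(fl t', q') ∉ W`
(otherwise by (a) `(t'', q') ∈ S` with `t'' ≥ t'`, and `p' ∈ S` by convexity), so `b(fl t', q') = 0`. If
`Has C t` and `(fl t, q) ∉ W`: the image is `0`, and we need `(fl t', q') ∉ W` when `p' ∈ S`: suppose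
`(fl t', q') ∈ W`; (b) holds for `q'`, hence for `q`, so (a) fails for `(fl t, q)`: there is `t1 ≥ t` in
the block of `t` with `(t1, q) ∉ S`; choose `(t2, q') ∈ S` with `t2 ≥ t1` (`t2 = t'` if `fl t < fl t'`, by
(a) if `fl t = fl t'`); then `(t, q) ≤ (t1, q) ≤ (t2, q')` gives `(t1, q) ∈ S`, contradiction. -/
def SLLI : Prop :=
  ∀ {k : Type u} [Field k] {T Q : Type u} [LinearOrder T] [PartialOrder Q] [Finite Q]
    (C : Finset T) (A B N : PRep k (C × Q)) (i : RHom A B) (p : RHom B N), RSES i p →
    (∀ (W : Cvx (C × Q)), ∀ x ∈ Sec W N, ∃ y ∈ Sec W B, ∀ r, p.app r (y r) = x r) →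
    ∃ (i' : RHom (Lx C A) (Lx C B)) (p' : RHom (Lx C B) (Lx C N)), SpreadExact i' p'

/-- **Job ISO**. `HasRes` is invariant under isomorphism.

Proof. Induction on `n`: `IsFP`, `IsSpreadSum` and `SpreadExact` are transported along a pointwise
bijective morphism `M → M'` (its pointwise inverse is a morphism); for `n + 1` keep `N` and `X` and
compose `p` with `f`. -/
def SISO : Prop :=
  ∀ {k : Type u} [Field k] {P : Type u} [PartialOrder P] (n : ℕ) (M M' : PRep k P)
    (f : RHom M M'), (∀ p, Function.Bijective (f.app p)) → HasRes n M → HasRes n M'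

end Q4.SR
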