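import Pool.Agent.Q4.SR.Stm

/-!
# The toolkit for free resolutions
-/

open Set

namespace Q4.SR

universe u

variable {k : Type u} [Field k] {P : Type u} [PartialOrder P]

/-- Composition. -/
def PMHom.comp {F G K : PM k P} (g : PMHom G K) (f : PMHom F G) : PMHom F K where
  app W := (g.app W).comp (f.app W)
  comm := by
    intro W W' η x
    simp only [LinearMap.comp_apply]
    rw [f.comm, g.comm]

/-- The inverse of a pointwise bijective morphism. -/
noncomputable def PMHom.inv {F G : PM k P} (f : PMHom F G)
    (hf : ∀ W, Function.Bijective (f.app W)) : PMHom G F where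
  app W := (LinearEquiv.ofBijective (f.app W) (hf W)).symm.toLinearMap
  comm := by
    intro W W' η x
    apply (hf W).1
    rw [f.comm]
    have h1 : ∀ (V : Cvx P) (y : G.obj V),
        f.app V ((LinearEquiv.ofBijective (f.app V) (hf V)).symm y) = y :=
      fun V y => (LinearEquiv.ofBijective (f.app V) (hf V)).apply_symm_apply y
    rw [LinearEquiv.coe_coe, LinearEquiv.coe_coe, h1, h1]

theorem PMHom.inv_bij {F G : PM k P} (f : PMHom F G)
    (hf : ∀ W, Function.Bijective (f.app W)) (W : Cvx P) :
    Function.Bijective ((f.inv hf).app W) :=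
  (LinearEquiv.ofBijective (f.app W) (hf W)).symm.bijective

/-- A morphism to a functor with values in the kernel of a morphism. -/
def PMHom.toKer {F G K : PM k P} (f : PMHom F G) (g : PMHom G K)
    (h : ∀ W x, g.app W (f.app W x) = 0) : PMHom F g.ker.toPM where
  app W := (f.app W).codRestrict (LinearMap.ker (g.app W)) (fun x => h W x)
  comm := by
    intro W W' η x
    apply Subtype.ext
    exact f.comm η x

theorem PMHom.toKer_val {F G K : PM k P} (f : PMHom F G) (g : PMHom G K)
    (h : ∀ W x, g.app W (f.app W x) = 0) (W : Cvx P) (x : F.obj W) :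
    ((f.toKer g h).app W x).1 = f.app W x := rfl

theorem ker_bij {F G K : PM k P} (i : PMHom F G) (p : PMHom G K) (h : SES i p) (W : Cvx P) :
    Function.Bijective ((i.toKer p (fun W x => (h.2.1 W _).2 ⟨x, rfl⟩)).app W) := by
  constructor
  · intro x y hxy
    apply h.1 W
    exact congrArg Subtype.val hxy
  · rintro ⟨y, hy⟩
    obtain ⟨x, hx⟩ := (h.2.1 W y).1 hy
    exact ⟨x, Subtype.ext hx⟩

/-- (b) -/
theorem FR_iso : ∀ (n : ℕ) (F G : PM k P) (f : PMHom F G), (∀ W, Function.Bijective (f.app W)) →
    FR n F → FR n G := by
  intro n F G f hf h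
  cases n with
  | zero =>
    obtain ⟨m, T, g, hg⟩ := h
    exact ⟨m, T, f.comp g, fun W => (hf W).comp (hg W)⟩
  | succ n =>
    obtain ⟨m, T, K, i, p, ⟨h1, h2, h3⟩, hK⟩ := h
    refine ⟨m, T, K, i, f.comp p, ⟨h1, ?_, ?_⟩, hK⟩
    · intro W x
      rw [← h2 W x]
      change f.app W (p.app W x) = 0 ↔ _
      constructor
      · intro h
        apply (hf W).1
        rw [h, map_zero]
      · intro h
        rw [h, map_zero]
    · intro W
      exact (hf W).2.comp (h3 W)

theorem FR_ker {n : ℕ} {F : PM k P} (h : FR (n + 1) F) :
    ∃ (m : ℕ) (T : Fin m → Cvx P) (p : PMHom (fre k T) F), (∀ W, Function.Surjective (p.app W)) ∧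
      FR n p.ker.toPM := by
  obtain ⟨m, T, K, i, p, hs, hK⟩ := h
  exact ⟨m, T, p, hs.2.2, FR_iso n _ _ _ (ker_bij i p hs) hK⟩

theorem FR_of_ker {n : ℕ} {F : PM k P} {m : ℕ} {T : Fin m → Cvx P} (p : PMHom (fre k T) F)
    (hp : ∀ W, Function.Surjective (p.app W)) (h : FR n p.ker.toPM) : FR (n + 1) F := by
  refine ⟨m, T, p.ker.toPM, p.ker.incl, p, ⟨?_, ?_, hp⟩, h⟩
  · intro W
    exact Subtype.val_injective
  · intro W x
    constructor
    · intro hx
      exact ⟨⟨x, hx⟩, rfl⟩
    · rintro ⟨y, rfl⟩
      exact y.2

/-- Two morphisms with the same target and isomorphic sources have isomorphic kernels. -/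
theorem FR_of_ker' {n : ℕ} {F Q : PM k P} {m : ℕ} {T : Fin m → Cvx P} (e : PMHom (fre k T) Q)
    (he : ∀ W, Function.Bijective (e.app W)) (p : PMHom Q F)
    (hp : ∀ W, Function.Surjective (p.app W)) (h : FR n p.ker.toPM) : FR (n + 1) F := by
  apply FR_of_ker (p.comp e) (fun W => (hp W).comp (he W).2)
  refine FR_iso n p.ker.toPM _ (PMHom.toKer (PMHom.comp (e.inv he) p.ker.incl) (p.comp e) ?_) ?_ h
  · intro W x
    change p.app W (e.app W ((LinearEquiv.ofBijective (e.app W) (he W)).symm x.1)) = 0
    have h1 : e.app W ((LinearEquiv.ofBijective (e.app W) (he W)).symm x.1) = x.1 :=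
      (LinearEquiv.ofBijective (e.app W) (he W)).apply_symm_apply x.1
    rw [h1]
    exact x.2
  · intro W
    constructor
    · intro x y hxy
      have h1 := congrArg Subtype.val hxy
      exact Subtype.ext ((e.inv_bij he W).1 h1)
    · rintro ⟨y, hy⟩
      refine ⟨⟨e.app W y, hy⟩, ?_⟩
      apply Subtype.ext
      exact (LinearEquiv.ofBijective (e.app W) (he W)).symm_apply_apply y

/-- Products over an index type. -/
def PM.piI {ι : Type} (F : ι → PM k P) : PM k P where
  obj W := ∀ i, (F i).obj W
  act := fun {W W'} =>
    { toFun := fun η => LinearMap.pi fun i => ((F i).act η).comp (LinearMap.proj i)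
      map_add' := by
        intro η θ
        ext x i
        simp
      map_smul' := by
        intro c η
        ext x i
        simp }
  act_one := by
    intro W x
    ext i
    exact (F i).act_one (x i)
  act_mul := by
    intro W W' W'' η θ x
    ext i
    exact (F i).act_mul η θ (x i)

/-- Reindexing. -/
def reidx {ι : Type} {n : ℕ} (F : ι → PM k P) (e : Fin n ≃ ι) :
    PMHom (PM.piI F) (PM.pi fun j => F (e j)) where
  app W := LinearMap.pi fun j => LinearMap.proj (e j)
  comm := by
    intro W W' η x
    rfl

theorem reidx_bij {ι : Type} {n : ℕ} (F : ι → PM k P) (e : Fin n ≃ ι) (W : Cvx P) :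
    Function.Bijective ((reidx F e).app W) := by
  constructor
  · intro x y hxy
    funext i
    have h := congrFun hxy (e.symm i)
    change x (e (e.symm i)) = y (e (e.symm i)) at h
    rw [e.apply_symm_apply] at h
    exact h
  · intro y
    refine ⟨Equiv.piCongrLeft (fun i => (F i).obj W) e y, ?_⟩
    funext j
    exact Equiv.piCongrLeft_apply_apply (fun i => (F i).obj W) e y j

/-- Binary products. -/
def PM.prod (F G : PM k P) : PM k P where
  obj W := F.obj W × G.obj W
  act := fun {W W'} =>
    { toFun := fun η => LinearMap.prodMap (F.act η) (G.act η)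
      map_add' := by
        intro η θ
        apply LinearMap.ext
        intro x
        simp
      map_smul' := by
        intro c η
        apply LinearMap.ext
        intro x
        simp }
  act_one := by
    intro W x
    exact Prod.ext (F.act_one x.1) (G.act_one x.2)
  act_mul := by
    intro W W' W'' η θ x
    exact Prod.ext (F.act_mul η θ x.1) (G.act_mul η θ x.2)

/-- The morphism out of a product given by two morphisms. -/
def PMHom.coprod {F G K : PM k P} (f : PMHom F K) (g : PMHom G K) : PMHom (F.prod G) K where
  app W := LinearMap.coprod (f.app W) (g.app W)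
  comm := by
    intro W W' η x
    change f.app W (F.act η x.1) + g.app W (G.act η x.2) = K.act η (f.app W' x.1 + g.app W' x.2)
    rw [f.comm, g.comm, map_add]

/-- The product of two free functors is free. -/
theorem fre_prod {m m' : ℕ} (T : Fin m → Cvx P) (T' : Fin m' → Cvx P) :
    ∃ (n : ℕ) (T'' : Fin n → Cvx P) (e : PMHom (fre k T'') ((fre k T).prod (fre k T'))),
      ∀ W, Function.Bijective (e.app W) := by
  let F : Fin m ⊕ Fin m' → PM k P := fun s => yo k (Sum.elim T T' s)
  let e : Fin (m + m') ≃ Fin m ⊕ Fin m' := finSumFinEquiv.symm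
  let h : PMHom (PM.piI F) ((fre k T).prod (fre k T')) :=
    { app := fun W =>
        { toFun := fun x => (fun i => x (Sum.inl i), fun j => x (Sum.inr j))
          map_add' := fun _ _ => rfl
          map_smul' := fun _ _ => rfl }
      comm := by
        intro W W' η x
        rfl }
  have hb : ∀ W, Function.Bijective (h.app W) := by
    intro W
    constructor
    · intro x y hxy
      funext s
      rcases s with i | j
      · exact congrFun (congrArg Prod.fst hxy) i
      · exact congrFun (congrArg Prod.snd hxy) j
    · rintro ⟨y1, y2⟩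
      refine ⟨fun s => match s with
        | Sum.inl i => y1 i
        | Sum.inr j => y2 j, rfl⟩
  refine ⟨m + m', fun j => Sum.elim T T' (e j), h.comp ((reidx F e).inv (reidx_bij F e)), ?_⟩
  intro W
  exact (hb W).comp ((reidx F e).inv_bij (reidx_bij F e) W)

/-- The morphism out of a free functor given by elements. -/
def yon {F : PM k P} {m : ℕ} (T : Fin m → Cvx P) (x : ∀ i, F.obj (T i)) : PMHom (fre k T) F where
  app W :=
    { toFun := fun η => ∑ i, F.act (η i) (x i)
      map_add' := by
        intro η θ
        rw [← Finset.sum_add_distrib]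
        apply Finset.sum_congr rfl
        intro i _
        exact LinearMap.map_add₂ F.act (show H k W.1 (T i).1 from η i) (θ i) (x i)
      map_smul' := by
        intro c η
        rw [Finset.smul_sum]
        apply Finset.sum_congr rfl
        intro i _
        exact LinearMap.map_smul₂ F.act c (show H k W.1 (T i).1 from η i) (x i) }
  comm := by
    intro W W' η x'
    change ∑ i, F.act (Hmul η (x' i)) (x i) = F.act η (∑ i, F.act (x' i) (x i))
    rw [map_sum]
    apply Finset.sum_congr rfl
    intro i _
    exact F.act_mul η (x' i) (x i)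

theorem Hmul_one {W T : Cvx P} (η : H k W.1 T.1) : Hmul η (Hone k T.1) = η := by
  apply Subtype.ext
  funext p
  change η.1 p * (Hone k T.1).1 p = η.1 p
  by_cases h : p ∈ T.1
  · simp [Hone, ind, h]
  · rw [Hright η h, zero_mul]

theorem yon_eq {F : PM k P} {m : ℕ} (T : Fin m → Cvx P) (f : PMHom (fre k T) F) (W : Cvx P)
    (η : (fre k T).obj W) :
    f.app W η = ∑ i, F.act (η i) (f.app (T i) (Pi.single i (Hone k (T i).1))) := by
  classical
  have h1 : η = ∑ i, (fre k T).act (η i) (Pi.single i (Hone k (T i).1)) := by
    funext j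
    let g : Fin m → (∀ i, H k W.1 (T i).1) :=
      fun i => (fre k T).act (η i) (Pi.single i (Hone k (T i).1))
    have h2 : (∑ i, g i) j = ∑ i, g i j := Finset.sum_apply j Finset.univ g
    change η j = (∑ i, g i) j
    rw [h2, Finset.sum_eq_single j]
    · change η j = Hmul (η j) ((Pi.single j (Hone k (T j).1) : ∀ i, H k (T j).1 (T i).1) j)
      rw [Pi.single_eq_same, Hmul_one]
    · intro i _ hij
      change Hmul (η i) ((Pi.single i (Hone k (T i).1) : ∀ j, H k (T i).1 (T j).1) j) = 0
      rw [Pi.single_eq_of_ne hij.symm]
      apply Subtype.ext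
      funext p
      exact mul_zero _
    · intro h
      exact absurd (Finset.mem_univ j) h
  conv_lhs => rw [h1]
  rw [map_sum]
  apply Finset.sum_congr rfl
  intro i _
  exact f.comm _ _

theorem fre_lift {B C : PM k P} {m : ℕ} {T : Fin m → Cvx P} (g : PMHom B C)
    (hg : ∀ W, Function.Surjective (g.app W)) (f : PMHom (fre k T) C) :
    ∃ f' : PMHom (fre k T) B, ∀ W x, g.app W (f'.app W x) = f.app W x := by
  classical
  choose x hx using fun i => hg (T i) (f.app (T i) (Pi.single i (Hone k (T i).1)))
  refine ⟨yon T x, ?_⟩
  intro W η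
  rw [yon_eq T f W η]
  change g.app W (∑ i, B.act (η i) (x i)) = _
  rw [map_sum]
  apply Finset.sum_congr rfl
  intro i _
  rw [g.comm, hx]

/-- The zero functor. -/
theorem FR_zero (F : PM k P) (h : ∀ W (x : F.obj W), x = 0) : FR 0 F := by
  refine ⟨0, Fin.elim0, ⟨fun W => 0, ?_⟩, ?_⟩
  · intro W W' η x
    simp
  · intro W
    constructor
    · intro x y _
      funext i
      exact i.elim0
    · intro y
      exact ⟨0, by rw [h W y]; rfl⟩

/-- (a) -/
theorem FR_succ : ∀ (n : ℕ) (F : PM k P), FR n F → FR (n + 1) F := by
  intro n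
  induction n with
  | zero =>
    rintro F ⟨m, T, f, hf⟩
    apply FR_of_ker f (fun W => (hf W).2)
    apply FR_zero
    intro W x
    apply Subtype.ext
    apply (hf W).1
    have h1 : f.app W x.1 = 0 := x.2
    rw [h1]
    exact (map_zero _).symm
  | succ n ih =>
    intro F hF
    obtain ⟨m, T, p, hp, hK⟩ := FR_ker hF
    exact FR_of_ker p hp (ih _ hK)

/-- (c) -/
theorem FR_ses : ∀ (n : ℕ) (A B C : PM k P) (i : PMHom A B) (p : PMHom B C), SES i p → FR n A →
    FR n C → FR n B := by
  intro n
  induction n with
  | zero =>
    rintro A B C i p ⟨h1, h2, h3⟩ ⟨mA, TA, fA, hfA⟩ ⟨mC, TC, fC, hfC⟩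
    obtain ⟨s, hs⟩ := fre_lift p h3 fC
    obtain ⟨m, T, e, he⟩ := fre_prod (k := k) TA TC
    let g : PMHom ((fre k TA).prod (fre k TC)) B := (i.comp fA).coprod s
    have hg : ∀ W (a : (fre k TA).obj W) (c : (fre k TC).obj W),
        g.app W (a, c) = i.app W (fA.app W a) + s.app W c := fun W a c => rfl
    suffices hb : ∀ W, Function.Bijective (g.app W) from
      ⟨m, T, g.comp e, fun W => (hb W).comp (he W)⟩
    intro W
    constructor
    · rw [injective_iff_map_eq_zero]
      intro x hac
      obtain ⟨a, c, rfl⟩ : ∃ (a : (fre k TA).obj W) (c : (fre k TC).obj W), x = (a, c) :=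
        ⟨x.1, x.2, rfl⟩
      have hac' : i.app W (fA.app W a) + s.app W c = 0 := hac
      have hc : c = 0 := by
        have h4 := congrArg (p.app W) hac'
        rw [map_add, (h2 W _).2 ⟨_, rfl⟩, zero_add, hs, map_zero] at h4
        exact (injective_iff_map_eq_zero _).1 (hfC W).1 c h4
      rw [hc, map_zero, add_zero] at hac'
      have ha : a = 0 := by
        have h5 := (injective_iff_map_eq_zero _).1 (h1 W) _ hac'
        exact (injective_iff_map_eq_zero _).1 (hfA W).1 a h5
      rw [ha, hc]
      rfl
    · intro b
      obtain ⟨c, hc⟩ := (hfC W).2 (p.app W b)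
      have h4 : p.app W (b - s.app W c) = 0 := by
        rw [map_sub, hs, hc, sub_self]
      obtain ⟨a', ha'⟩ := (h2 W _).1 h4
      obtain ⟨a, ha⟩ := (hfA W).2 a'
      refine ⟨(a, c), ?_⟩
      change i.app W (fA.app W a) + s.app W c = b
      rw [ha, ha', sub_add_cancel]
  | succ n ih =>
    rintro A B C i p ⟨h1, h2, h3⟩ hA hC
    obtain ⟨mA, TA, fA, hfA, hKA⟩ := FR_ker hA
    obtain ⟨mC, TC, fC, hfC, hKC⟩ := FR_ker hC
    obtain ⟨s, hs⟩ := fre_lift p h3 fC
    obtain ⟨m, T, e, he⟩ := fre_prod (k := k) TA TC
    let g : PMHom ((fre k TA).prod (fre k TC)) B := (i.comp fA).coprod s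
    have hg : ∀ W x, g.app W x = i.app W (fA.app W x.1) + s.app W x.2 := fun W x => rfl
    apply FR_of_ker' e he g
    · intro W b
      obtain ⟨c, hc⟩ := hfC W (p.app W b)
      have h4 : p.app W (b - s.app W c) = 0 := by
        rw [map_sub, hs, hc, sub_self]
      obtain ⟨a', ha'⟩ := (h2 W _).1 h4
      obtain ⟨a, ha⟩ := hfA W a'
      refine ⟨(a, c), ?_⟩
      rw [hg]
      simp only
      rw [ha, ha', sub_add_cancel]
    · let α : PMHom fA.ker.toPM g.ker.toPM :=
        { app := fun W =>
            { toFun := fun x => ⟨(x.1, 0), by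
                change g.app W (x.1, 0) = 0
                have hx : fA.app W x.1 = 0 := x.2
                rw [hg]
                simp only
                rw [hx, map_zero, map_zero, add_zero]⟩
              map_add' := by
                intro x y
                apply Subtype.ext
                exact Prod.ext rfl (add_zero _).symm
              map_smul' := by
                intro c x
                apply Subtype.ext
                exact Prod.ext rfl (smul_zero c).symm }
          comm := by
            intro W W' η x
            apply Subtype.ext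
            refine Prod.ext rfl ?_
            exact (map_zero ((fre k TC).act η)).symm }
      let β : PMHom g.ker.toPM fC.ker.toPM :=
        { app := fun W =>
            { toFun := fun x => ⟨x.1.2, by
                change fC.app W x.1.2 = 0
                have hx : g.app W x.1 = 0 := x.2
                rw [hg] at hx
                have h4 := congrArg (p.app W) hx
                rw [map_add, (h2 W _).2 ⟨_, rfl⟩, zero_add, hs, map_zero] at h4
                exact h4⟩
              map_add' := by
                intro x y
                rfl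
              map_smul' := by
                intro c x
                rfl }
          comm := by
            intro W W' η x
            rfl }
      apply ih fA.ker.toPM g.ker.toPM fC.ker.toPM α β ⟨?_, ?_, ?_⟩ hKA hKC
      · intro W x y hxy
        have h5 := congrArg (fun z => (Subtype.val z).1) hxy
        exact Subtype.ext h5
      · intro W x
        constructor
        · intro hx
          have h5 : x.1.2 = 0 := congrArg Subtype.val hx
          have hx' : g.app W x.1 = 0 := x.2
          rw [hg, h5, map_zero, add_zero] at hx'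
          have h6 := (injective_iff_map_eq_zero _).1 (h1 W) _ hx'
          refine ⟨⟨x.1.1, h6⟩, ?_⟩
          apply Subtype.ext
          exact Prod.ext rfl h5.symm
        · rintro ⟨y, rfl⟩
          rfl
      · intro W c
        have hc : fC.app W c.1 = 0 := c.2
        have h4 : p.app W (s.app W c.1) = 0 := by rw [hs, hc]
        obtain ⟨a', ha'⟩ := (h2 W _).1 h4
        obtain ⟨a, ha⟩ := hfA W a'
        refine ⟨⟨(-a, c.1), ?_⟩, rfl⟩
        change g.app W (-a, c.1) = 0
        rw [hg]
        simp only
        rw [map_neg, ha, map_neg, ha', neg_add_cancel]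

/-- (d) -/
theorem FR_cone : ∀ (n : ℕ) (A B C : PM k P) (i : PMHom A B) (p : PMHom B C), SES i p → FR n A →
    FR (n + 1) B → FR (n + 1) C := by
  rintro n A B C i p hs hA hB
  obtain ⟨m, T, q, hq, hK⟩ := FR_ker hB
  apply FR_of_ker (p.comp q) (fun W => (hs.2.2 W).comp (hq W))
  have hA' : FR n p.ker.toPM := FR_iso n _ _ _ (ker_bij i p hs) hA
  let α : PMHom q.ker.toPM (p.comp q).ker.toPM :=
    { app := fun W =>
        { toFun := fun x => ⟨x.1, by
            change p.app W (q.app W x.1) = 0
            have hx : q.app W x.1 = 0 := x.2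
            rw [hx, map_zero]⟩
          map_add' := by
            intro x y
            rfl
          map_smul' := by
            intro c x
            rfl }
      comm := by
        intro W W' η x
        rfl }
  let β : PMHom (p.comp q).ker.toPM p.ker.toPM :=
    { app := fun W =>
        { toFun := fun x => ⟨q.app W x.1, x.2⟩
          map_add' := by
            intro x y
            apply Subtype.ext
            exact map_add _ _ _
          map_smul' := by
            intro c x
            apply Subtype.ext
            exact map_smul _ _ _ }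
      comm := by
        intro W W' η x
        apply Subtype.ext
        exact q.comm η x.1 }
  apply FR_ses n q.ker.toPM (p.comp q).ker.toPM p.ker.toPM α β ⟨?_, ?_, ?_⟩ hK hA'
  · intro W x y hxy
    have h6 : ((α.app W) x).1 = ((α.app W) y).1 := congrArg Subtype.val hxy
    exact Subtype.ext h6
  · intro W x
    constructor
    · intro hx
      have h5 : q.app W x.1 = 0 := congrArg Subtype.val hx
      exact ⟨⟨x.1, h5⟩, rfl⟩
    · rintro ⟨y, rfl⟩
      apply Subtype.ext
      exact y.2
  · rintro W ⟨b, hb⟩
    obtain ⟨x, hx⟩ := hq W b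
    refine ⟨⟨x, ?_⟩, Subtype.ext hx⟩
    change p.app W (q.app W x) = 0
    rw [hx]
    exact hb

/-- (e) -/
theorem FR_pi : ∀ (n m : ℕ) (F : Fin m → PM k P), (∀ i, FR n (F i)) → FR n (PM.pi F) := by
  intro n m
  have hmono : ∀ (n : ℕ) (F : PM k P), FR 0 F → FR n F := by
    intro n F hF
    induction n with
    | zero => exact hF
    | succ n ih => exact FR_succ n F ih
  induction m with
  | zero =>
    intro F _
    apply hmono
    apply FR_zero
    intro W x
    funext i
    exact i.elim0
  | succ m ih =>
    intro F hF
    classical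
    let α : PMHom (F 0) (PM.pi F) :=
      { app := fun W => LinearMap.single k (fun i => (F i).obj W) 0
        comm := by
          intro W W' η x
          funext i
          change (Pi.single 0 ((F 0).act η x) : ∀ i, (F i).obj W) i =
            (F i).act η ((Pi.single 0 x : ∀ i, (F i).obj W') i)
          by_cases h : i = 0
          · subst h
            rw [Pi.single_eq_same, Pi.single_eq_same]
          · rw [Pi.single_eq_of_ne h, Pi.single_eq_of_ne h, map_zero] }
    let β : PMHom (PM.pi F) (PM.pi fun i : Fin m => F i.succ) :=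
      { app := fun W =>
          { toFun := fun x i => x i.succ
            map_add' := fun _ _ => rfl
            map_smul' := fun _ _ => rfl }
        comm := by
          intro W W' η x
          rfl }
    apply FR_ses n (F 0) (PM.pi F) (PM.pi fun i : Fin m => F i.succ) α β ⟨?_, ?_, ?_⟩ (hF 0)
      (ih _ fun i => hF _)
    · intro W x y hxy
      have h6 := congrFun hxy 0
      change (Pi.single 0 x : ∀ i, (F i).obj W) 0 = (Pi.single 0 y : ∀ i, (F i).obj W) 0 at h6
      rw [Pi.single_eq_same, Pi.single_eq_same] at h6
      exact h6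
    · intro W x
      constructor
      · intro hx
        refine ⟨x 0, ?_⟩
        funext i
        refine Fin.cases ?_ (fun j => ?_) i
        · change (Pi.single 0 (x 0) : ∀ i, (F i).obj W) 0 = x 0
          exact Pi.single_eq_same _ _
        · have h1 : x j.succ = 0 := congrFun hx j
          rw [h1]
          change (Pi.single 0 (x 0) : ∀ i, (F i).obj W) j.succ = 0
          exact Pi.single_eq_of_ne (Fin.succ_ne_zero j) _
      · rintro ⟨y, rfl⟩
        funext j
        change (Pi.single 0 y : ∀ i, (F i).obj W) j.succ = 0
        exact Pi.single_eq_of_ne (Fin.succ_ne_zero j) _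
    · intro W y
      exact ⟨Fin.cons 0 y, rfl⟩

theorem tTK : STK.{u} :=
  fun {_} _ {_} _ => ⟨FR_succ, FR_iso, FR_ses, FR_cone, FR_pi⟩

end Q4.SR
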